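import Mathlib

set_option autoImplicit false
set_option linter.all false

/-!
# Forcing the principle `◊⁺`

A sentence of the forcing language of a preordered set `P` of conditions is represented by the
set of the conditions which force it. Negation, conjunction and universal quantification are the
primitive connectives, with their usual forcing clauses; the other connectives are defined from
them classically. A name for a subset of a ground model set `X` is a map sending `x : X` to the
set of the conditions attached to `x`.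
-/

namespace Pool.Agent.Helper330.DPF

open Set

universe u v w

section

variable {P : Type u} [Preorder P]

/-- `p` forces `not φ` iff no `q ≤ p` forces `φ`. -/
def fnot (φ : Set P) : Set P := {p | ∀ q ≤ p, q ∉ φ}

/-- `p` forces `φ and ψ` iff it forces both. -/
def fand (φ ψ : Set P) : Set P := {p | p ∈ φ ∧ p ∈ ψ}

/-- `p` forces `for all i, φ i` iff it forces every `φ i`. -/
def fall {ι : Sort v} (φ : ι → Set P) : Set P := {p | ∀ i, p ∈ φ i}

/-- `φ implies ψ` is `not (φ and not ψ)`. -/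
def fimp (φ ψ : Set P) : Set P := fnot (fand φ (fnot ψ))

/-- `φ if and only if ψ`. -/
def fiff (φ ψ : Set P) : Set P := fand (fimp φ ψ) (fimp ψ φ)

/-- `there is i with φ i` is `not for all i, not φ i`. -/
def fex {ι : Sort v} (φ : ι → Set P) : Set P := fnot (fall fun i => fnot (φ i))

/-- An absolute statement about ground model objects. -/
def fground (h : Prop) : Set P := {_p | h}

/-- `p` forces that the generic filter meets the set `N` of conditions:
the set of `r` lying below some member of `N` is dense below `p`. -/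
def meets (N : Set P) : Set P := {p | ∀ q ≤ p, ∃ r ≤ q, ∃ s ∈ N, r ≤ s}

/-- The relation named by `R` is a function from `X` to `Y`. -/
def IsFun {X : Type v} {Y : Type w} (R : X → Y → Set P) : Set P :=
  fand (fall fun x => fex fun y => meets (R x y))
    (fall fun x => fall fun y => fall fun y' =>
      fimp (fand (meets (R x y)) (meets (R x y'))) (fground (y = y')))

/-- The relation named by `R` is onto `Y`. -/
def IsOnto {X : Type v} {Y : Type w} (R : X → Y → Set P) : Set P :=
  fall fun y => fex fun x => meets (R x y)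

end

/-- The well-ordered set of the ordinals below `ω₁`. -/
abbrev W1 : Type := (Cardinal.aleph 1 : Cardinal.{0}).ord.ToType

/-- The principle `◊⁺`: there are countable families `{B a n : n ∈ ℕ}` of subsets of `a`
(`a < ω₁`; the values `B a n x` for `x ≥ a` are irrelevant) such that for every set `X ⊆ ω₁`
there is a closed unbounded set `C ⊆ ω₁` such that for all `a ∈ C` both `X ∩ a` and `C ∩ a`
belong to the family of `a`. -/
def DiamondPlus : Prop :=
  ∃ B : W1 → ℕ → W1 → Prop, ∀ X : W1 → Prop, ∃ C : W1 → Prop,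
    (∀ a, ∃ b, a < b ∧ C b) ∧
    (∀ a, (∃ b, b < a) → (∀ b, b < a → ∃ c, (b < c ∧ c < a) ∧ C c) → C a) ∧
    ∀ a, C a →
      (∃ n, ∀ x, x < a → (X x ↔ B a n x)) ∧ (∃ n, ∀ x, x < a → (C x ↔ B a n x))

section

variable (P : Type u) [Preorder P]

/-- In the extension there is no function from the natural numbers onto the ground model `ω₁`;
so the ground model `ω₁` is still the first uncountable ordinal. -/
def OmegaOnePreserved : Set P :=
  fnot (fex fun R : ℕ → W1 → Set P => fand (IsFun R) (IsOnto R))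

/-- `DiamondPlus` holds in the extension. -/
def DiamondPlusHolds : Set P :=
  fex fun B : W1 → ℕ → W1 → Set P => fall fun X : W1 → Set P => fex fun C : W1 → Set P => fand
    (fall fun a => fex fun b => fand (fground (a < b)) (meets (C b)))
    (fand
      (fall fun a => fall fun _ : (∃ b, b < a) => fimp
        (fall fun b => fall fun _ : b < a => fex fun c =>
          fand (fground (b < c ∧ c < a)) (meets (C c)))
        (meets (C a)))
      (fall fun a => fimp (meets (C a)) (fand
        (fex fun n : ℕ => fall fun x => fall fun _ : x < a =>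
          fiff (meets (X x)) (meets (B a n x)))
        (fex fun n : ℕ => fall fun x => fall fun _ : x < a =>
          fiff (meets (C x)) (meets (B a n x))))))

end

/-! ### General facts -/

section

variable {P : Type u} [Preorder P]

theorem mem_fex {ι : Sort v} {φ : ι → Set P} {p : P} :
    p ∈ fex φ ↔ ∀ q ≤ p, ∃ r ≤ q, ∃ i, r ∈ φ i := by
  simp only [fex, fnot, fall, Set.mem_ofPred_eq, not_forall, not_not]
  constructor
  · intro h q hq
    obtain ⟨i, r, hr, h'⟩ := h q hq
    exact ⟨r, hr, i, h'⟩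
  · intro h q hq
    obtain ⟨r, hr, i, h'⟩ := h q hq
    exact ⟨i, r, hr, h'⟩

theorem mem_fimp {φ ψ : Set P} {p : P} :
    p ∈ fimp φ ψ ↔ ∀ q ≤ p, q ∈ φ → ∃ r ≤ q, r ∈ ψ := by
  simp only [fimp, fnot, fand, Set.mem_ofPred_eq, not_and, not_forall, not_not]
  constructor
  · intro h q hq h'
    obtain ⟨r, hr, h''⟩ := h q hq h'
    exact ⟨r, hr, h''⟩
  · intro h q hq h'
    obtain ⟨r, hr, h''⟩ := h q hq h'
    exact ⟨r, hr, h''⟩

def Down (φ : Set P) : Prop := ∀ p ∈ φ, ∀ q ≤ p, q ∈ φ

theorem down_fnot (φ : Set P) : Down (fnot φ) :=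
  fun _ hp _ hq r hr => hp r (hr.trans hq)

theorem down_fand {φ ψ : Set P} (h : Down φ) (h' : Down ψ) : Down (fand φ ψ) :=
  fun _ hp _ hq => ⟨h _ hp.1 _ hq, h' _ hp.2 _ hq⟩

theorem down_fall {ι : Sort v} {φ : ι → Set P} (h : ∀ i, Down (φ i)) : Down (fall φ) :=
  fun _ hp _ hq i => h i _ (hp i) _ hq

theorem down_fex {ι : Sort v} (φ : ι → Set P) : Down (fex φ) := down_fnot _

theorem down_fimp (φ ψ : Set P) : Down (fimp φ ψ) := down_fnot _

theorem down_meets (N : Set P) : Down (meets N) :=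
  fun _ hp _ hq r hr => hp r (hr.trans hq)

/-- a sentence which is forced as soon as it is forced densely below -/
theorem meets_of_dense {N : Set P} {p : P} (h : ∀ q ≤ p, ∃ r ≤ q, r ∈ meets N) :
    p ∈ meets N := by
  intro q hq
  obtain ⟨r, hr, h1⟩ := h q hq
  obtain ⟨s, hs, t, ht, hst⟩ := h1 r le_rfl
  exact ⟨s, hs.trans hr, t, ht, hst⟩

theorem fimp_of {φ ψ : Set P} {p : P} (h : ∀ q ≤ p, q ∈ φ → q ∈ ψ) : p ∈ fimp φ ψ :=
  mem_fimp.2 fun q hq h' => ⟨q, le_rfl, h q hq h'⟩

/-- `p` decides the sentence `φ`, with truth value `v`. -/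
def Dec (p : P) (φ : Set P) (v : Prop) : Prop := (v ∧ p ∈ φ) ∨ (¬ v ∧ p ∈ fnot φ)

end

/-! ### The forcing notion -/

/-- Raw conditions: a height `ht < ω₁`, families `b a` (`a ≤ ht`), an enumeration `e` of reals of
length `ht`, and countably many names `s n` with sets `c n` (whose values above `ht` are
irrelevant). -/
structure Raw where
  ht : W1
  b : W1 → ℕ → W1 → Prop
  e : W1 → Set ℕ
  s : ℕ → Set (Set ℕ)
  c : ℕ → W1 → Prop

/-- `q` extends `p`. -/
def Ext (q p : Raw) : Prop :=
  p.ht ≤ q.ht ∧ (∀ a, a ≤ p.ht → ∀ n x, x < a → (q.b a n x ↔ p.b a n x)) ∧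
  (∀ i, i < p.ht → q.e i = p.e i) ∧
  ∀ n, ∃ m, q.s m = p.s n ∧ ∀ a, a ≤ p.ht → (q.c m a ↔ p.c n a)

theorem ext_refl (p : Raw) : Ext p p :=
  ⟨le_rfl, fun _ _ _ _ _ => Iff.rfl, fun _ _ => rfl, fun n => ⟨n, rfl, fun _ _ => Iff.rfl⟩⟩

theorem ext_trans {r q p : Raw} (h : Ext r q) (h' : Ext q p) : Ext r p := by
  refine ⟨h'.1.trans h.1, fun a ha n x hx => ?_, fun i hi => ?_, fun n => ?_⟩
  · exact (h.2.1 a (ha.trans h'.1) n x hx).trans (h'.2.1 a ha n x hx)
  · exact (h.2.2.1 i (hi.trans_le h'.1)).trans (h'.2.2.1 i hi)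
  · obtain ⟨m, hm, hm'⟩ := h'.2.2.2 n
    obtain ⟨k, hk, hk'⟩ := h.2.2.2 m
    exact ⟨k, hk.trans hm, fun a ha => (hk' a (ha.trans h'.1)).trans (hm' a ha)⟩

/-- A coding of names: `D Z x m` is the `m`-th condition deciding `x`, with the truth value. -/
abbrev Cod : Type := Set (Set ℕ) → W1 → Set ℕ → Raw × Prop

/-- The part below `a` of the set named by `Z`, as computed from `p`. -/
def WS (D : Cod) (p : Raw) (Z : Set (Set ℕ)) (a x : W1) : Prop :=
  ∃ i, i < a ∧ (D Z x (p.e i)).2 ∧ (D Z x (p.e i)).1.ht < a ∧ Ext p (D Z x (p.e i)).1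

/-- `x` is a closure point for the name `Z`, as computed from `p`. -/
def Cpt (D : Cod) (p : Raw) (Z : Set (Set ℕ)) (x : W1) : Prop :=
  ∀ y, y < x → ∃ i, i < x ∧ (D Z y (p.e i)).1.ht < x ∧ Ext p (D Z y (p.e i)).1

/-- The two sets of the name `p.s n` are captured at `a`. -/
def Cap (D : Cod) (p : Raw) (n : ℕ) (a : W1) : Prop :=
  (∃ k, ∀ x, x < a → (p.b a k x ↔ WS D p (p.s n) a x)) ∧
  (∃ k, ∀ x, x < a → (p.b a k x ↔ (p.c n x ∧ Cpt D p (p.s n) x)))

/-- Equal names have equal sets. -/
def V1 (p : Raw) : Prop := ∀ n m, p.s n = p.s m → ∀ a, a ≤ p.ht → (p.c n a ↔ p.c m a)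

/-- The sets contain the height and are closed. -/
def V2 (p : Raw) : Prop := ∀ n, p.c n p.ht ∧ ∀ a, a ≤ p.ht → (∃ b, b < a) →
  (∀ b, b < a → ∃ c, (b < c ∧ c < a) ∧ p.c n c) → p.c n a

/-- The names are closed. -/
def V3 (D : Cod) (p : Raw) : Prop :=
  ∀ n x i, x < p.ht → i < p.ht → ∀ m, ∃ k, p.s k = (D (p.s n) x (p.e i)).1.s m

/-- Valid raw conditions. -/
structure Valid (D : Cod) (p : Raw) : Prop where
  v1 : V1 p
  v2 : V2 p
  v3 : V3 D p
  v4 : ∀ n a, a ≤ p.ht → p.c n a → Cap D p n a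

/-- The conditions. -/
def PD (D : Cod) : Type := {p : Raw // Valid D p}

instance (D : Cod) : Preorder (PD D) where
  le q p := Ext q.1 p.1
  le_refl p := ext_refl p.1
  le_trans _ _ _ h h' := ext_trans h h'

/-- The name of the sequence of families. -/
def BName (D : Cod) (a : W1) (n : ℕ) (x : W1) : Set (PD D) := {p | a ≤ p.1.ht ∧ p.1.b a n x}

/-- The name of the club of the name `Z`. -/
def CName (D : Cod) (Z : Set (Set ℕ)) (a : W1) : Set (PD D) :=
  {r | a ≤ r.1.ht ∧ (∃ n, r.1.s n = Z ∧ r.1.c n a) ∧ Cpt D r.1 Z a}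

/-- `Z` codes the name `X`: the conditions `(D Z x m).1` decide `x ∈ X`, with the truth value
`(D Z x m).2`, and they are predense. -/
def Codes (D : Cod) (X : W1 → Set (PD D)) (Z : Set (Set ℕ)) : Prop :=
  ∀ x, (∀ m, ∃ r : PD D, (D Z x m).1 = r.1 ∧
      (((D Z x m).2 ∧ r ∈ meets (X x)) ∨ (¬ (D Z x m).2 ∧ r ∈ fnot (meets (X x))))) ∧
    ∀ p : PD D, ∃ m, ∃ q, q ≤ p ∧ Ext q.1 (D Z x m).1

end Pool.Agent.Helper330.DPF
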