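import Pool.Agent.Helper330.DPF.Defs

set_option autoImplicit false
set_option linter.all false

/-!
# Forcing the principle `◊⁺`

A sentence of the forcing language of a preordered set `P` of conditions is represented by the
set of the conditions which force it. Negation, conjunction and universal quantification are the
primitive connectives, with their usual forcing clauses; the other connectives are defined from
them classically. A name for a subset of a ground model set `X` is a map sending `x : X` to the
set of the conditions attached to `x`.
-/

namespace Pool.Agent.Helper330.DPF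
open Set


theorem stab {q p r : Raw} (h : Ext q p) (h1 : V1 q) (hr : ∀ m, ∃ k, p.s k = r.s m)
    (hh : r.ht ≤ p.ht) : Ext q r ↔ Ext p r := by
  constructor
  · intro hqr
    refine ⟨hh, fun a ha n x hx => ?_, fun i hi => ?_, fun n => ?_⟩
    · exact (h.2.1 a (ha.trans hh) n x hx).symm.trans (hqr.2.1 a ha n x hx)
    · exact (h.2.2.1 i (hi.trans_le hh)).symm.trans (hqr.2.2.1 i hi)
    · obtain ⟨k, hk⟩ := hr n
      obtain ⟨m, hm, hm'⟩ := hqr.2.2.2 n
      obtain ⟨m', hm1, hm1'⟩ := h.2.2.2 k
      refine ⟨k, hk, fun a ha => ?_⟩
      have e1 : q.s m = q.s m' := by rw [hm, hm1, hk]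
      have e2 := h1 m m' e1 a (ha.trans hqr.1)
      exact (hm1' a (ha.trans hh)).symm.trans (e2.symm.trans (hm' a ha))
  · exact fun h' => ext_trans h h'

end Pool.Agent.Helper330.DPF
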