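import Pool.Agent.Helper330.DPF.Defs
import Pool.Agent.Helper330.DPF.P_stab

set_option autoImplicit false
set_option linter.all false

/-!
# Forcing the principle `◊⁺`

A sentence of the forcing language of a preordered set `P` of conditions is represented by the
set of the conditions which force it. Negation, conjunction and universal quantification are the
primitive connectives, with their usual forcing clauses; the other connectives are defined from
them classically. A name for a subset of a ground model set `X` is a map sending `x : X` to the
set of the conditions attached to `x`.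
-/

namespace Pool.Agent.Helper330.DPF
open Set


theorem cptStab {D : Cod} {q p : Raw} (h : Ext q p) (h1 : V1 q) (h3 : V3 D p) {n : ℕ}
    {a : W1} (ha : a ≤ p.ht) : Cpt D q (p.s n) a ↔ Cpt D p (p.s n) a := by
  constructor
  · intro hc y hy
    obtain ⟨i, hi, hht, hE⟩ := hc y hy
    have he : q.e i = p.e i := h.2.2.1 i (lt_of_lt_of_le hi ha)
    rw [he] at hht hE
    exact ⟨i, hi, hht, (stab h h1 (h3 n y i (lt_of_lt_of_le hy ha) (lt_of_lt_of_le hi ha))
      (hht.le.trans ha)).1 hE⟩
  · intro hc y hy
    obtain ⟨i, hi, hht, hE⟩ := hc y hy
    have he : q.e i = p.e i := h.2.2.1 i (lt_of_lt_of_le hi ha)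
    refine ⟨i, hi, ?_, ?_⟩
    · rw [he]; exact hht
    · rw [he]
      exact (stab h h1 (h3 n y i (lt_of_lt_of_le hy ha) (lt_of_lt_of_le hi ha))
        (hht.le.trans ha)).2 hE

end Pool.Agent.Helper330.DPF
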