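import Pool.Agent.Helper330.DPF.Defs
import Pool.Agent.Helper330.DPF.P_stab
import Pool.Agent.Helper330.DPF.P_cptStab

set_option autoImplicit false
set_option linter.all false

/-!
# Forcing the principle `◊⁺`

A sentence of the forcing language of a preordered set `P` of conditions is represented by the
set of the conditions which force it. Negation, conjunction and universal quantification are the
primitive connectives, with their usual forcing clauses; the other connectives are defined from
them classically. A name for a subset of a ground model set `X` is a map sending `x : X` to the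
set of the conditions attached to `x`.
-/

namespace Pool.Agent.Helper330.DPF
open Set


theorem capStab_ws {D : Cod} {q p : Raw} (h : Ext q p) (h1 : V1 q) (h3 : V3 D p) {n : ℕ}
    {a x : W1} (ha : a ≤ p.ht) (hx : x < a) : WS D q (p.s n) a x ↔ WS D p (p.s n) a x := by
  constructor
  · rintro ⟨i, hi, h2, h4, h5⟩
    have he := h.2.2.1 i (hi.trans_le ha)
    rw [he] at h2 h4 h5
    exact ⟨i, hi, h2, h4,
      (stab h h1 (h3 n x i (hx.trans_le ha) (hi.trans_le ha)) (h4.le.trans ha)).1 h5⟩
  · rintro ⟨i, hi, h2, h4, h5⟩
    have he := h.2.2.1 i (hi.trans_le ha)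
    refine ⟨i, hi, ?_, ?_, ?_⟩
    · rw [he]; exact h2
    · rw [he]; exact h4
    · rw [he]
      exact (stab h h1 (h3 n x i (hx.trans_le ha) (hi.trans_le ha)) (h4.le.trans ha)).2 h5

theorem capStab_c {q p : Raw} (h : Ext q p) (h1 : V1 q) {m n : ℕ}
    (hm : q.s m = p.s n) {a x : W1} (ha : a ≤ p.ht) (hx : x < a) : q.c m x ↔ p.c n x := by
  obtain ⟨m', hm', hc⟩ := h.2.2.2 n
  have hxp : x ≤ p.ht := (hx.trans_le ha).le
  exact (h1 m m' (hm.trans hm'.symm) x (hxp.trans h.1)).trans (hc x hxp)

theorem capStab {D : Cod} {q p : Raw} (h : Ext q p) (h1 : V1 q) (h3 : V3 D p) {m n : ℕ}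
    (hm : q.s m = p.s n) {a : W1} (ha : a ≤ p.ht) : Cap D q m a ↔ Cap D p n a := by
  unfold Cap
  rw [hm]
  refine and_congr ?_ ?_
  · refine exists_congr fun k => forall_congr' fun x => ?_
    refine imp_congr_right fun hx => ?_
    rw [h.2.1 a ha k x hx, capStab_ws h h1 h3 ha hx]
  · refine exists_congr fun k => forall_congr' fun x => ?_
    refine imp_congr_right fun hx => ?_
    rw [h.2.1 a ha k x hx, capStab_c h h1 hm ha hx, cptStab h h1 h3 (hx.trans_le ha).le]

end Pool.Agent.Helper330.DPF
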