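import Pool.Agent.Helper330.DPF.Defs
import Pool.Agent.Helper330.DPF.P_capStab

set_option autoImplicit false
set_option linter.all false

/-!
# Forcing the principle `◊⁺`

A sentence of the forcing language of a preordered set `P` of conditions is represented by the
set of the conditions which force it. Negation, conjunction and universal quantification are the
primitive connectives, with their usual forcing clauses; the other connectives are defined from
them classically. A name for a subset of a ground model set `X` is a map sending `x : X` to the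
set of the conditions attached to `x`.
-/

namespace Pool.Agent.Helper330.DPF
open Set


theorem amal {D : Cod} (p q : PD D) (hh : p.1.ht = q.1.ht)
    (hb : ∀ a, a ≤ p.1.ht → ∀ n x, x < a → (p.1.b a n x ↔ q.1.b a n x))
    (he : ∀ i, i < p.1.ht → p.1.e i = q.1.e i)
    (hc : ∀ n m, p.1.s n = q.1.s m → ∀ a, a ≤ p.1.ht → (p.1.c n a ↔ q.1.c m a)) :
    ∃ r : PD D, r ≤ p ∧ r ≤ q := by
  obtain ⟨r0, hrht, hrb, hre, hs0, hs1, hc0, hc1⟩ : ∃ r0 : Raw, r0.ht = p.1.ht ∧ r0.b = p.1.b ∧
      r0.e = p.1.e ∧ (∀ n, r0.s (2 * n) = p.1.s n) ∧ (∀ n, r0.s (2 * n + 1) = q.1.s n) ∧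
      (∀ n, r0.c (2 * n) = p.1.c n) ∧ (∀ n, r0.c (2 * n + 1) = q.1.c n) := by
    refine ⟨⟨p.1.ht, p.1.b, p.1.e, fun l => if l % 2 = 0 then p.1.s (l / 2) else q.1.s (l / 2),
      fun l => if l % 2 = 0 then p.1.c (l / 2) else q.1.c (l / 2)⟩, rfl, rfl, rfl, ?_, ?_, ?_, ?_⟩
    · intro n
      have h1 : (2 * n) % 2 = 0 := by omega
      have h2 : (2 * n) / 2 = n := by omega
      simp only [h1, h2, if_true]
    · intro n
      have h1 : ¬ (2 * n + 1) % 2 = 0 := by omega
      have h2 : (2 * n + 1) / 2 = n := by omega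
      simp only [h1, h2, if_false]
    · intro n
      have h1 : (2 * n) % 2 = 0 := by omega
      have h2 : (2 * n) / 2 = n := by omega
      simp only [h1, h2, if_true]
    · intro n
      have h1 : ¬ (2 * n + 1) % 2 = 0 := by omega
      have h2 : (2 * n + 1) / 2 = n := by omega
      simp only [h1, h2, if_false]
  have hpar : ∀ l : ℕ, (∃ n, l = 2 * n) ∨ (∃ n, l = 2 * n + 1) := by
    intro l
    rcases Nat.even_or_odd' l with ⟨n, h | h⟩
    · exact Or.inl ⟨n, h⟩
    · exact Or.inr ⟨n, h⟩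
  have hEp : Ext r0 p.1 := by
    refine ⟨hrht.ge, ?_, ?_, ?_⟩
    · intro a _ n x _
      rw [hrb]
    · intro i _
      rw [hre]
    · intro n
      exact ⟨2 * n, hs0 n, fun a _ => by rw [hc0]⟩
  have hEq : Ext r0 q.1 := by
    refine ⟨(hh.symm.trans hrht.symm).le, ?_, ?_, ?_⟩
    · intro a ha n x hx
      rw [hrb]
      exact hb a (ha.trans_eq hh.symm) n x hx
    · intro i hi
      rw [hre]
      exact he i (hi.trans_eq hh.symm)
    · intro n
      exact ⟨2 * n + 1, hs1 n, fun a _ => by rw [hc1]⟩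
  have hV1 : V1 r0 := by
    intro n m hnm a ha
    rw [hrht] at ha
    rcases hpar n with ⟨n', rfl⟩ | ⟨n', rfl⟩ <;> rcases hpar m with ⟨m', rfl⟩ | ⟨m', rfl⟩
    · rw [hs0, hs0] at hnm
      rw [hc0, hc0]
      exact p.2.v1 n' m' hnm a ha
    · rw [hs0, hs1] at hnm
      rw [hc0, hc1]
      exact hc n' m' hnm a ha
    · rw [hs0, hs1] at hnm
      rw [hc0, hc1]
      exact (hc m' n' hnm.symm a ha).symm
    · rw [hs1, hs1] at hnm
      rw [hc1, hc1]
      exact q.2.v1 n' m' hnm a (ha.trans_eq hh)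
  have hV2 : V2 r0 := by
    intro n
    rcases hpar n with ⟨n', rfl⟩ | ⟨n', rfl⟩
    · rw [hc0, hrht]
      exact p.2.v2 n'
    · rw [hc1, hrht, hh]
      exact q.2.v2 n'
  have hV3 : V3 D r0 := by
    intro n x i hx hi m
    rw [hrht] at hx hi
    rcases hpar n with ⟨n', rfl⟩ | ⟨n', rfl⟩
    · obtain ⟨k, hk⟩ := p.2.v3 n' x i hx hi m
      refine ⟨2 * k, ?_⟩
      rw [hs0, hs0, hre]
      exact hk
    · obtain ⟨k, hk⟩ := q.2.v3 n' x i (hx.trans_eq hh) (hi.trans_eq hh) m
      refine ⟨2 * k + 1, ?_⟩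
      rw [hs1, hs1, hre, he i hi]
      exact hk
  have hV4 : ∀ n a, a ≤ r0.ht → r0.c n a → Cap D r0 n a := by
    intro n a ha hca
    rw [hrht] at ha
    rcases hpar n with ⟨n', rfl⟩ | ⟨n', rfl⟩
    · rw [hc0] at hca
      exact (capStab hEp hV1 p.2.v3 (hs0 n') ha).mpr (p.2.v4 n' a ha hca)
    · rw [hc1] at hca
      exact (capStab hEq hV1 q.2.v3 (hs1 n') (ha.trans_eq hh)).mpr
        (q.2.v4 n' a (ha.trans_eq hh) hca)
  exact ⟨⟨r0, hV1, hV2, hV3, hV4⟩, hEp, hEq⟩

end Pool.Agent.Helper330.DPF
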