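import Pool.Agent.Helper330.DPF.Defs

set_option autoImplicit false
set_option linter.all false

/-!
# Forcing the principle `◊⁺`

A sentence of the forcing language of a preordered set `P` of conditions is represented by the
set of the conditions which force it. Negation, conjunction and universal quantification are the
primitive connectives, with their usual forcing clauses; the other connectives are defined from
them classically. A name for a subset of a ground model set `X` is a map sending `x : X` to the
set of the conditions attached to `x`.
-/

namespace Pool.Agent.Helper330.DPF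
open Set


theorem bddOne (f : ℕ → W1) : ∃ a : W1, ∀ i, f i < a := by
  by_contra hcon
  push Not at hcon
  have hct : ∀ a : W1, (Set.Iic a).Countable := by
    intro a
    have h1 : (Set.Iio a).Countable := by
      rw [← Cardinal.le_aleph0_iff_set_countable]
      have h2 : Cardinal.mk (Set.Iio a) < Cardinal.aleph 1 := Cardinal.mk_Iio_toType_ord_lt a
      have h5 : Cardinal.mk (Set.Iio a) < Order.succ Cardinal.aleph0 := by
        refine lt_of_lt_of_eq h2 Cardinal.succ_aleph0.symm
      exact Order.lt_succ_iff.mp h5
    rw [← Set.Iio_union_right]
    exact h1.union (Set.countable_singleton a)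
  have huniv : (Set.univ : Set W1) = ⋃ i, Set.Iic (f i) := by
    ext a
    simp only [Set.mem_univ, Set.mem_iUnion, Set.mem_Iic, true_iff]
    exact hcon a
  have hc : (Set.univ : Set W1).Countable := by
    rw [huniv]
    exact Set.countable_iUnion (fun i => hct _)
  have h3 : Cardinal.mk W1 ≤ Cardinal.aleph0 := by
    rw [← Cardinal.mk_univ]
    exact (Cardinal.le_aleph0_iff_set_countable).mpr hc
  have h4 : Cardinal.mk W1 = Cardinal.aleph 1 := by
    rw [Cardinal.mk_ord_toType]
  rw [h4] at h3
  exact absurd h3 (not_le.mpr Cardinal.aleph0_lt_aleph_one)

end Pool.Agent.Helper330.DPF
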