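import Pool.Agent.Helper330.DPF.Defs

set_option autoImplicit false
set_option linter.all false

/-!
# Forcing the principle `◊⁺`

A sentence of the forcing language of a preordered set `P` of conditions is represented by the
set of the conditions which force it. Negation, conjunction and universal quantification are the
primitive connectives, with their usual forcing clauses; the other connectives are defined from
them classically. A name for a subset of a ground model set `X` is a map sending `x : X` to the
set of the conditions attached to `x`.
-/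

namespace Pool.Agent.Helper330.DPF
open Set


theorem botCond_min : ∃ b : W1, ∀ x : W1, ¬ x < b := by
  have hne : Nonempty W1 := by
    rw [Ordinal.nonempty_toType_iff]
    intro h
    have h1 : (Cardinal.aleph 1 : Cardinal.{0}) = 0 := by
      rwa [Cardinal.ord_eq_zero] at h
    exact (Cardinal.aleph_pos 1).ne' h1
  obtain ⟨x⟩ := hne
  obtain ⟨b, _, hb⟩ := (wellFounded_lt : WellFounded ((· < ·) : W1 → W1 → Prop)).has_min
    Set.univ ⟨x, trivial⟩
  exact ⟨b, fun x => hb x trivial⟩

theorem botCond (D : Cod) : Nonempty (PD D) := by
  obtain ⟨bot, hbot⟩ := botCond_min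
  refine ⟨⟨⟨bot, fun _ _ _ => False, fun _ => ∅, fun _ => ∅, fun _ _ => True⟩, ?_⟩⟩
  refine ⟨?_, ?_, ?_, ?_⟩
  · intro n m _ a _
    exact Iff.rfl
  · intro n
    exact ⟨trivial, fun a _ _ _ => trivial⟩
  · intro n x i hx
    exact absurd hx (hbot x)
  · intro n a ha _
    have hno : ∀ x, x < a → False := fun x hx => hbot x (lt_of_lt_of_le hx ha)
    exact ⟨⟨0, fun x hx => (hno x hx).elim⟩, ⟨0, fun x hx => (hno x hx).elim⟩⟩

end Pool.Agent.Helper330.DPF
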