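import Pool.Agent.Helper330.DPF.Defs

set_option autoImplicit false
set_option linter.all false

/-!
# Forcing the principle `◊⁺`

A sentence of the forcing language of a preordered set `P` of conditions is represented by the
set of the conditions which force it. Negation, conjunction and universal quantification are the
primitive connectives, with their usual forcing clauses; the other connectives are defined from
them classically. A name for a subset of a ground model set `X` is a map sending `x : X` to the
set of the conditions attached to `x`.
-/

namespace Pool.Agent.Helper330.DPF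
open Set


theorem decB {D : Cod} (q : PD D) {a x : W1} (n : ℕ) (ha : a ≤ q.1.ht) (hx : x < a) :
    Dec q (meets (BName D a n x)) (q.1.b a n x) := by
  by_cases hb : q.1.b a n x
  · refine Or.inl ⟨hb, ?_⟩
    intro r hr
    have hr1 : Ext r.1 q.1 := hr
    exact ⟨r, le_rfl, r, ⟨ha.trans hr1.1, (hr1.2.1 a ha n x hx).2 hb⟩, le_rfl⟩
  · refine Or.inr ⟨hb, ?_⟩
    intro r hr hm
    obtain ⟨r', hr', s, hs, hrs⟩ := hm r le_rfl
    have h1 : Ext r'.1 s.1 := hrs
    have h2 : Ext r'.1 q.1 := le_trans hr' hr
    have h3 : r'.1.b a n x := (h1.2.1 a hs.1 n x hx).2 hs.2
    exact hb ((h2.2.1 a ha n x hx).1 h3)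

end Pool.Agent.Helper330.DPF
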