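import Pool.Agent.Helper330.DPF.Defs

set_option autoImplicit false
set_option linter.all false

/-!
# Forcing the principle `◊⁺`

A sentence of the forcing language of a preordered set `P` of conditions is represented by the
set of the conditions which force it. Negation, conjunction and universal quantification are the
primitive connectives, with their usual forcing clauses; the other connectives are defined from
them classically. A name for a subset of a ground model set `X` is a map sending `x : X` to the
set of the conditions attached to `x`.
-/

namespace Pool.Agent.Helper330.DPF
open Set


theorem cptMono {D : Cod} {q p : Raw} (h : Ext q p) {Z : Set (Set ℕ)}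
    {a : W1} (ha : a ≤ p.ht) (hc : Cpt D p Z a) : Cpt D q Z a := by
  intro y hy
  obtain ⟨i, hi, h1, h2⟩ := hc y hy
  have he : q.e i = p.e i := h.2.2.1 i (lt_of_lt_of_le hi ha)
  rw [← he] at h1 h2
  exact ⟨i, hi, h1, ext_trans h h2⟩

end Pool.Agent.Helper330.DPF
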