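import Pool.Agent.Helper330.DPF.Defs
import Pool.Agent.Helper330.DPF.P_cptStab
import Pool.Agent.Helper330.DPF.P_cptMono

set_option autoImplicit false
set_option linter.all false

/-!
# Forcing the principle `◊⁺`

A sentence of the forcing language of a preordered set `P` of conditions is represented by the
set of the conditions which force it. Negation, conjunction and universal quantification are the
primitive connectives, with their usual forcing clauses; the other connectives are defined from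
them classically. A name for a subset of a ground model set `X` is a map sending `x : X` to the
set of the conditions attached to `x`.
-/

namespace Pool.Agent.Helper330.DPF
open Set


theorem decC {D : Cod} (q : PD D) {a : W1} (n : ℕ) (ha : a ≤ q.1.ht) :
    Dec q (meets (CName D (q.1.s n) a)) (q.1.c n a ∧ Cpt D q.1 (q.1.s n) a) := by
  by_cases hv : q.1.c n a ∧ Cpt D q.1 (q.1.s n) a
  · refine Or.inl ⟨hv, fun q' hq' => ⟨q', le_rfl, q', ?_, le_rfl⟩⟩
    have hE : Ext q'.1 q.1 := hq'
    obtain ⟨m, hm, hm'⟩ := hE.2.2.2 n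
    exact ⟨ha.trans hE.1, ⟨m, hm, (hm' a ha).2 hv.1⟩, cptMono hE ha hv.2⟩
  · refine Or.inr ⟨hv, fun r hr hmeet => hv ?_⟩
    obtain ⟨r', hr', s, ⟨has, ⟨m, hZ, hc⟩, hcpt⟩, hrs⟩ := hmeet r le_rfl
    have hE : Ext r'.1 q.1 := ext_trans hr' hr
    have hE' : Ext r'.1 s.1 := hrs
    obtain ⟨m1, h1, h1'⟩ := hE'.2.2.2 m
    obtain ⟨m2, h2, h2'⟩ := hE.2.2.2 n
    refine ⟨(h2' a ha).1 ((r'.2.v1 m1 m2 ?_ a (ha.trans hE.1)).1 ((h1' a has).2 hc)), ?_⟩
    · rw [h1, hZ, h2]
    · exact (cptStab hE r'.2.v1 q.2.v3 ha).1 (cptMono hE' has hcpt)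

end Pool.Agent.Helper330.DPF
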