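import Pool.Agent.Helper330.DPF.Defs

set_option autoImplicit false
set_option linter.all false

/-!
# Forcing the principle `◊⁺`

A sentence of the forcing language of a preordered set `P` of conditions is represented by the
set of the conditions which force it. Negation, conjunction and universal quantification are the
primitive connectives, with their usual forcing clauses; the other connectives are defined from
them classically. A name for a subset of a ground model set `X` is a map sending `x : X` to the
set of the conditions attached to `x`.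
-/

namespace Pool.Agent.Helper330.DPF
open Set


theorem decIff {P : Type} [Preorder P] {p : P} {φ ψ : Set P} (hφ : Down φ) (hψ : Down ψ)
    {v w : Prop} (h : Dec p φ v) (h' : Dec p ψ w) : Dec p (fiff φ ψ) (v ↔ w) := by
  rcases h with ⟨hv, hp⟩ | ⟨hv, hp⟩
  · rcases h' with ⟨hw, hq⟩ | ⟨hw, hq⟩
    · exact Or.inl ⟨iff_of_true hv hw, fimp_of (fun q hqp _ => hψ p hq q hqp),
        fimp_of (fun q hqp _ => hφ p hp q hqp)⟩
    · refine Or.inr ⟨fun hvw => hw (hvw.1 hv), ?_⟩
      intro q hqp hf
      obtain ⟨r, hr, hrψ⟩ := mem_fimp.1 hf.1 q le_rfl (hφ p hp q hqp)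
      exact hq r (hr.trans hqp) hrψ
  · rcases h' with ⟨hw, hq⟩ | ⟨hw, hq⟩
    · refine Or.inr ⟨fun hvw => hv (hvw.2 hw), ?_⟩
      intro q hqp hf
      obtain ⟨r, hr, hrφ⟩ := mem_fimp.1 hf.2 q le_rfl (hψ p hq q hqp)
      exact hp r (hr.trans hqp) hrφ
    · exact Or.inl ⟨iff_of_false hv hw, fimp_of (fun q hqp h => absurd h (hp q hqp)),
        fimp_of (fun q hqp h => absurd h (hq q hqp))⟩

end Pool.Agent.Helper330.DPF
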