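import Pool.Agent.Helper330.DPF.Defs

set_option autoImplicit false
set_option linter.all false

/-!
# Forcing the principle `◊⁺`

A sentence of the forcing language of a preordered set `P` of conditions is represented by the
set of the conditions which force it. Negation, conjunction and universal quantification are the
primitive connectives, with their usual forcing clauses; the other connectives are defined from
them classically. A name for a subset of a ground model set `X` is a map sending `x : X` to the
set of the conditions attached to `x`.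
-/

namespace Pool.Agent.Helper330.DPF
open Set


theorem decX {D : Cod} {X : W1 → Set (PD D)} {Z : Set (Set ℕ)} (hZ : Codes D X Z) (q : PD D)
    {a x : W1} (hx : x < a) (hc : Cpt D q.1 Z a) :
    Dec q (meets (X x)) (WS D q.1 Z a x) := by
  obtain ⟨i, hi, hht, hext⟩ := hc x hx
  obtain ⟨r, hr, hdec⟩ := (hZ x).1 (q.1.e i)
  have hqr : q ≤ r := by
    show Ext q.1 r.1
    rw [← hr]
    exact hext
  rcases hdec with ⟨h1, h2⟩ | ⟨h1, h2⟩
  · left
    exact ⟨⟨i, hi, h1, hht, hext⟩, down_meets _ r h2 q hqr⟩
  · right
    have h3 : q ∈ fnot (meets (X x)) := down_fnot _ r h2 q hqr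
    refine ⟨?_, h3⟩
    rintro ⟨i', hi', h4, hht', hext'⟩
    obtain ⟨r', hr', hdec'⟩ := (hZ x).1 (q.1.e i')
    have hqr' : q ≤ r' := by
      show Ext q.1 r'.1
      rw [← hr']
      exact hext'
    rcases hdec' with ⟨h5, h6⟩ | ⟨h5, h6⟩
    · exact h3 q le_rfl (down_meets _ r' h6 q hqr')
    · exact h5 h4

end Pool.Agent.Helper330.DPF
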