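import Pool.Agent.Helper330.DPF.Defs
import Pool.Agent.Helper330.DPF.P_decIff
import Pool.Agent.Helper330.DPF.P_decB
import Pool.Agent.Helper330.DPF.P_decC
import Pool.Agent.Helper330.DPF.P_decX

set_option autoImplicit false
set_option linter.all false

/-!
# Forcing the principle `◊⁺`

A sentence of the forcing language of a preordered set `P` of conditions is represented by the
set of the conditions which force it. Negation, conjunction and universal quantification are the
primitive connectives, with their usual forcing clauses; the other connectives are defined from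
them classically. A name for a subset of a ground model set `X` is a map sending `x : X` to the
set of the conditions attached to `x`.
-/

namespace Pool.Agent.Helper330.DPF
open Set


theorem capture_dec {P : Type} [Preorder P] {p : P} {φ : Set P} {v : Prop} (h : Dec p φ v)
    (hv : v) : p ∈ φ := by
  rcases h with h | h
  · exact h.2
  · exact absurd hv h.1

theorem capture {D : Cod} {X : W1 → Set (PD D)} {Z : Set (Set ℕ)} (hZ : Codes D X Z)
    (q : PD D) (n : ℕ) (hn : q.1.s n = Z) (a : W1) (ha : a ≤ q.1.ht)
    (h : q ∈ meets (CName D Z a)) :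
    (∃ k, ∀ x, x < a → q ∈ fiff (meets (X x)) (meets (BName D a k x))) ∧
    (∃ k, ∀ x, x < a → q ∈ fiff (meets (CName D Z x)) (meets (BName D a k x))) := by
  subst hn
  have h1 : q.1.c n a ∧ Cpt D q.1 (q.1.s n) a := by
    rcases decC q n ha with h2 | h2
    · exact h2.1
    · exact absurd h (h2.2 q le_rfl)
  obtain ⟨⟨k1, hk1⟩, ⟨k2, hk2⟩⟩ := q.2.v4 n a ha h1.1
  refine ⟨⟨k1, fun x hx => ?_⟩, ⟨k2, fun x hx => ?_⟩⟩
  · exact capture_dec (decIff (down_meets _) (down_meets _) (decX hZ q hx h1.2)
      (decB q k1 ha hx)) (hk1 x hx).symm
  · exact capture_dec (decIff (down_meets _) (down_meets _) (decC q n (hx.le.trans ha))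
      (decB q k2 ha hx)) (hk2 x hx).symm

end Pool.Agent.Helper330.DPF
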