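import Pool.Agent.Helper330.DPF.Defs

set_option autoImplicit false
set_option linter.all false

/-!
# Forcing the principle `◊⁺`

A sentence of the forcing language of a preordered set `P` of conditions is represented by the
set of the conditions which force it. Negation, conjunction and universal quantification are the
primitive connectives, with their usual forcing clauses; the other connectives are defined from
them classically. A name for a subset of a ground model set `X` is a map sending `x : X` to the
set of the conditions attached to `x`.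
-/

namespace Pool.Agent.Helper330.DPF
open Set


/-- arities -/
def clos_ar (A : Type) : Option (A × ℕ) → Type
  | none => Empty
  | some _ => ℕ

/-- evaluation of terms -/
def clos_ev {A J : Type} (z0 : J) (G : A → (ℕ → J) → ℕ → J) : WType (clos_ar A) → J
  | ⟨none, _⟩ => z0
  | ⟨some (a, n), f⟩ => G a (fun k => clos_ev z0 G (f k)) n

theorem clos_card (A : Type) (hA : Cardinal.mk A ≤ Cardinal.continuum) :
    Cardinal.mk (WType (clos_ar A)) ≤ Cardinal.continuum := by
  apply WType.cardinalMk_le_of_le
  have h1 : ∀ a : Option (A × ℕ), Cardinal.continuum ^ Cardinal.mk (clos_ar A a) ≤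
      (Cardinal.continuum : Cardinal.{0}) := by
    intro a
    cases a with
    | none =>
      have : Cardinal.mk (clos_ar A none) = 0 := Cardinal.mk_empty
      rw [this, Cardinal.power_zero]
      exact Cardinal.one_le_aleph0.trans Cardinal.aleph0_le_continuum
    | some b =>
      have : Cardinal.mk (clos_ar A (some b)) = Cardinal.aleph0 := Cardinal.mk_nat
      rw [this, Cardinal.continuum_power_aleph0]
  refine (Cardinal.sum_le_sum _ _ h1).trans ?_
  rw [Cardinal.sum_const']
  have h2 : Cardinal.mk (Option (A × ℕ)) ≤ Cardinal.continuum := by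
    rw [Cardinal.mk_option, Cardinal.mk_prod, Cardinal.lift_id, Cardinal.lift_id, Cardinal.mk_nat]
    calc Cardinal.mk A * Cardinal.aleph0 + 1
        ≤ Cardinal.continuum * Cardinal.aleph0 + 1 := by gcongr
      _ = Cardinal.continuum := by
          rw [Cardinal.continuum_mul_aleph0]
          exact Cardinal.add_one_eq Cardinal.aleph0_le_continuum
  calc Cardinal.mk (Option (A × ℕ)) * Cardinal.continuum
      ≤ Cardinal.continuum * Cardinal.continuum := by gcongr
    _ = Cardinal.continuum := Cardinal.continuum_mul_self

theorem clos {A J : Type} (z0 : J) (hA : Cardinal.mk A ≤ Cardinal.continuum)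
    (G : A → (ℕ → J) → ℕ → J) :
    ∃ S : Set J, z0 ∈ S ∧ Cardinal.mk S ≤ Cardinal.continuum ∧
      ∀ a (f : ℕ → J), (∀ n, f n ∈ S) → ∀ n, G a f n ∈ S := by
  refine ⟨Set.range (clos_ev z0 G), ⟨⟨none, fun e => nomatch e⟩, by rw [clos_ev]⟩,
    Cardinal.mk_range_le.trans (clos_card A hA), ?_⟩
  intro a f hf n
  choose g hg using hf
  refine ⟨⟨some (a, n), g⟩, ?_⟩
  have h1 : clos_ev z0 G (WType.mk (some (a, n)) g) =
      G a (fun k => clos_ev z0 G (g k)) n := rfl
  have h2 : (fun k => clos_ev z0 G (g k)) = f := funext hg
  exact h1.trans (by rw [h2])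

end Pool.Agent.Helper330.DPF
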