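import Pool.Agent.Helper330.DPF.Defs
import Pool.Agent.Helper330.DPF.P_clos

set_option autoImplicit false
set_option linter.all false

/-!
# Forcing the principle `◊⁺`

A sentence of the forcing language of a preordered set `P` of conditions is represented by the
set of the conditions which force it. Negation, conjunction and universal quantification are the
primitive connectives, with their usual forcing clauses; the other connectives are defined from
them classically. A name for a subset of a ground model set `X` is a map sending `x : X` to the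
set of the conditions attached to `x`.
-/

namespace Pool.Agent.Helper330.DPF
open Set


theorem cobound_aux_fun {U : Type} (hU : Cardinal.mk U ≤ Cardinal.continuum) :
    Cardinal.mk (ℕ → U) ≤ Cardinal.continuum := by
  have h1 : Cardinal.mk (ℕ → U) = Cardinal.mk U ^ Cardinal.aleph0 := by
    rw [← Cardinal.mk_nat, Cardinal.power_def]
  rw [h1]
  exact (Cardinal.power_le_power_right hU).trans (le_of_eq Cardinal.continuum_power_aleph0)

theorem cobound_aux_prod {A B : Type} (hA : Cardinal.mk A ≤ Cardinal.continuum)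
    (hB : Cardinal.mk B ≤ Cardinal.continuum) : Cardinal.mk (A × B) ≤ Cardinal.continuum := by
  rw [← Cardinal.mul_def]
  exact (mul_le_mul' hA hB).trans (le_of_eq Cardinal.continuum_mul_self)

theorem cobound {ι J T U : Type} (hι : Cardinal.continuum < Cardinal.mk ι)
    (hT : Cardinal.mk T ≤ Cardinal.continuum) (hU : Cardinal.mk U ≤ Cardinal.continuum)
    (s : ι → ℕ → J) (t : ι → T) (u : ι → ℕ → U)
    (h : ∀ i n m, s i n = s i m → u i n = u i m) :
    ∃ i j, i ≠ j ∧ t i = t j ∧ ∀ n m, s i n = s j m → u i n = u j m := by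
  classical
  have hιne : Nonempty ι := by
    rw [← Cardinal.mk_ne_zero_iff]
    intro h0
    rw [h0] at hι
    exact absurd hι (not_lt.2 zero_le)
  obtain ⟨i0⟩ := hιne
  let A : Type := T × (Set ℕ × (ℕ → U))
  have hA : Cardinal.mk A ≤ Cardinal.continuum := by
    apply cobound_aux_prod hT
    apply cobound_aux_prod _ (cobound_aux_fun hU)
    rw [Cardinal.mk_set, Cardinal.mk_nat, Cardinal.two_power_aleph0]
  let jj : A → (ℕ → J) → ι := fun a f =>
    if hex : ∃ j, t j = a.1 ∧ u j = a.2.2 ∧ ∀ n ∈ a.2.1, s j n = f n then hex.choose else i0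
  have hjj : ∀ (a : A) (f : ℕ → J), (∃ j, t j = a.1 ∧ u j = a.2.2 ∧ ∀ n ∈ a.2.1, s j n = f n) →
      t (jj a f) = a.1 ∧ u (jj a f) = a.2.2 ∧ ∀ n ∈ a.2.1, s (jj a f) n = f n := by
    intro a f hex
    have e : jj a f = hex.choose := dif_pos hex
    rw [e]
    exact hex.choose_spec
  obtain ⟨S, hz0, hS, hcl⟩ := clos (s i0 0) hA (fun a f n => s (jj a f) n)
  have hB : Cardinal.mk (A × (ℕ → S)) ≤ Cardinal.continuum :=
    cobound_aux_prod hA (cobound_aux_fun hS)
  obtain ⟨i, hi⟩ : ∃ i, ∀ b : A × (ℕ → S), jj b.1 (fun n => (b.2 n : J)) ≠ i := by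
    by_contra hcon
    push Not at hcon
    have hsurj : Function.Surjective (fun b : A × (ℕ → S) => jj b.1 (fun n => (b.2 n : J))) :=
      fun i => hcon i
    have h1 := Cardinal.mk_le_of_surjective hsurj
    exact absurd (hι.trans_le (h1.trans hB)) (lt_irrefl _)
  let f : ℕ → S := fun n => if hn : s i n ∈ S then ⟨s i n, hn⟩ else ⟨s i0 0, hz0⟩
  have hf : ∀ n, s i n ∈ S → (f n : J) = s i n := by
    intro n hn
    have e : f n = ⟨s i n, hn⟩ := dif_pos hn
    rw [e]
  let a : A := (t i, {n | s i n ∈ S}, u i)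
  obtain ⟨h1, h2, h3⟩ := hjj a (fun n => (f n : J)) ⟨i, rfl, rfl, fun n hn => (hf n hn).symm⟩
  have h4 : ∀ n, s (jj a (fun n => (f n : J))) n ∈ S :=
    hcl a (fun n => (f n : J)) (fun n => (f n).2)
  have h5 : jj a (fun n => (f n : J)) ≠ i := hi (a, f)
  refine ⟨i, jj a (fun n => (f n : J)), Ne.symm h5, h1.symm, ?_⟩
  intro n m hnm
  have h6 : s i n ∈ S := by
    rw [hnm]
    exact h4 m
  have h7 : s (jj a (fun n => (f n : J))) n = s i n := (h3 n h6).trans (hf n h6)
  have h8 := h _ _ _ (h7.trans hnm)
  rw [← h8, h2]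

end Pool.Agent.Helper330.DPF
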