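import Pool.Agent.Helper330.DPF.Defs

set_option autoImplicit false
set_option linter.all false

/-!
# Forcing the principle `◊⁺`

A sentence of the forcing language of a preordered set `P` of conditions is represented by the
set of the conditions which force it. Negation, conjunction and universal quantification are the
primitive connectives, with their usual forcing clauses; the other connectives are defined from
them classically. A name for a subset of a ground model set `X` is a map sending `x : X` to the
set of the conditions attached to `x`.
-/

namespace Pool.Agent.Helper330.DPF
open Set


theorem ctblIio (a : W1) : (Set.Iio a).Countable := by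
  have h : Cardinal.mk (Set.Iio a) < Cardinal.aleph 1 := Cardinal.mk_Iio_toType_ord_lt a
  have h2 : (Cardinal.aleph 1 : Cardinal.{0}) = Order.succ Cardinal.aleph0 :=
    Cardinal.succ_aleph0.symm
  have h3 : Cardinal.mk (Set.Iio a) < Order.succ Cardinal.aleph0 := lt_of_lt_of_eq h h2
  exact Cardinal.le_aleph0_iff_set_countable.mp (Order.lt_succ_iff.mp h3)

end Pool.Agent.Helper330.DPF
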