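import Pool.Agent.Helper330.DPF.Defs
import Pool.Agent.Helper330.DPF.P_ctblIio

set_option autoImplicit false
set_option linter.all false

/-!
# Forcing the principle `◊⁺`

A sentence of the forcing language of a preordered set `P` of conditions is represented by the
set of the conditions which force it. Negation, conjunction and universal quantification are the
primitive connectives, with their usual forcing clauses; the other connectives are defined from
them classically. A name for a subset of a ground model set `X` is a map sending `x : X` to the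
set of the conditions attached to `x`.
-/

namespace Pool.Agent.Helper330.DPF
open Set


theorem codeRestr_inj : ∃ g : W1 → W1 → ℕ, ∀ a, Set.InjOn (g a) (Set.Iic a) := by
  have h : ∀ a : W1, ∃ f : W1 → ℕ, Set.InjOn f (Set.Iic a) := by
    intro a
    rw [← Set.countable_iff_exists_injOn]
    have h1 : (Set.Iic a : Set W1) = insert a (Set.Iio a) := by
      ext x
      simp only [Set.mem_Iic, Set.mem_insert_iff, Set.mem_Iio]
      exact le_iff_eq_or_lt
    rw [h1]
    exact (ctblIio a).insert a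
  choose g hg using h
  exact ⟨g, hg⟩

def codeRestr_c1 (g : W1 → W1 → ℕ) (H : W1) (b : W1 → ℕ → W1 → Prop) : Set (ℕ × ℕ × ℕ) :=
  {x | ∃ a y, a ≤ H ∧ y < a ∧ g H a = x.1 ∧ g H y = x.2.2 ∧ b a x.2.1 y}

def codeRestr_c2 (g : W1 → W1 → ℕ) (H : W1) (e : W1 → Set ℕ) : Set (ℕ × ℕ) :=
  {x | ∃ i, i < H ∧ g H i = x.1 ∧ x.2 ∈ e i}

def codeRestr_c3 (g : W1 → W1 → ℕ) (H : W1) (c : W1 → Prop) : Set ℕ :=
  {k | ∃ a, a ≤ H ∧ g H a = k ∧ c a}

theorem codeRestr_l1 (g : W1 → W1 → ℕ) (hg : ∀ a, Set.InjOn (g a) (Set.Iic a)) (H : W1)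
    (b b' : W1 → ℕ → W1 → Prop) (h : codeRestr_c1 g H b ⊆ codeRestr_c1 g H b') (a : W1)
    (ha : a ≤ H) (n : ℕ) (x : W1) (hx : x < a) (hb : b a n x) : b' a n x := by
  have h1 : (g H a, n, g H x) ∈ codeRestr_c1 g H b := ⟨a, x, ha, hx, rfl, rfl, hb⟩
  obtain ⟨a', y', h2, h3, h4, h5, h6⟩ := h h1
  have e1 : a' = a := hg H h2 ha h4
  have e2 : y' = x := hg H (h3.le.trans h2) (hx.le.trans ha) h5
  rw [e1, e2] at h6
  exact h6

theorem codeRestr_l2 (g : W1 → W1 → ℕ) (hg : ∀ a, Set.InjOn (g a) (Set.Iic a)) (H : W1)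
    (e e' : W1 → Set ℕ) (h : codeRestr_c2 g H e ⊆ codeRestr_c2 g H e') (i : W1)
    (hi : i < H) : e i ⊆ e' i := by
  intro l hl
  have h1 : (g H i, l) ∈ codeRestr_c2 g H e := ⟨i, hi, rfl, hl⟩
  obtain ⟨i', h2, h3, h4⟩ := h h1
  have e1 : i' = i := hg H h2.le hi.le h3
  rw [e1] at h4
  exact h4

theorem codeRestr_l3 (g : W1 → W1 → ℕ) (hg : ∀ a, Set.InjOn (g a) (Set.Iic a)) (H : W1)
    (c c' : W1 → Prop) (h : codeRestr_c3 g H c ⊆ codeRestr_c3 g H c') (a : W1)
    (ha : a ≤ H) (hc : c a) : c' a := by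
  have h1 : g H a ∈ codeRestr_c3 g H c := ⟨a, ha, rfl, hc⟩
  obtain ⟨a', h2, h3, h4⟩ := h h1
  have e1 : a' = a := hg H h2 ha h3
  rw [e1] at h4
  exact h4

theorem codeRestr_card_set (α : Type) [Countable α] [Infinite α] :
    Cardinal.mk (Set α) = Cardinal.continuum := by
  rw [Cardinal.mk_set, Cardinal.mk_eq_aleph0, Cardinal.two_power_aleph0]

theorem codeRestr : ∃ (T U : Type) (t : Raw → T) (u : Raw → ℕ → U),
    Cardinal.mk T ≤ Cardinal.continuum ∧ Cardinal.mk U ≤ Cardinal.continuum ∧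
    (∀ p q : Raw, t p = t q → p.ht = q.ht ∧
      (∀ a, a ≤ p.ht → ∀ n x, x < a → (p.b a n x ↔ q.b a n x)) ∧
      (∀ i, i < p.ht → p.e i = q.e i)) ∧
    (∀ p q : Raw, p.ht = q.ht → ∀ n m,
      (u p n = u q m ↔ ∀ a, a ≤ p.ht → (p.c n a ↔ q.c m a))) := by
  obtain ⟨g, hg⟩ := codeRestr_inj
  refine ⟨W1 × Set (ℕ × ℕ × ℕ) × Set (ℕ × ℕ), Set ℕ,
    fun p => (p.ht, codeRestr_c1 g p.ht p.b, codeRestr_c2 g p.ht p.e),
    fun p n => codeRestr_c3 g p.ht (p.c n), ?_, ?_, ?_, ?_⟩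
  · have h1 : Cardinal.mk W1 ≤ Cardinal.continuum := by
      rw [Cardinal.mk_ord_toType]
      exact Cardinal.aleph_one_le_continuum
    have h2 : Cardinal.mk (W1 × Set (ℕ × ℕ × ℕ) × Set (ℕ × ℕ)) =
        Cardinal.mk W1 * (Cardinal.mk (Set (ℕ × ℕ × ℕ)) * Cardinal.mk (Set (ℕ × ℕ))) := by
      rw [Cardinal.mk_prod, Cardinal.mk_prod]
      simp only [Cardinal.lift_id]
    rw [h2, codeRestr_card_set, codeRestr_card_set, Cardinal.continuum_mul_self]
    calc Cardinal.mk W1 * Cardinal.continuum ≤ Cardinal.continuum * Cardinal.continuum :=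
          mul_le_mul_left h1 _
      _ = Cardinal.continuum := Cardinal.continuum_mul_self
  · exact (codeRestr_card_set ℕ).le
  · intro p q h
    have h1 : p.ht = q.ht := congrArg (fun x => x.1) h
    have h2 : codeRestr_c1 g p.ht p.b = codeRestr_c1 g q.ht q.b := congrArg (fun x => x.2.1) h
    have h3 : codeRestr_c2 g p.ht p.e = codeRestr_c2 g q.ht q.e := congrArg (fun x => x.2.2) h
    rw [← h1] at h2 h3
    refine ⟨h1, fun a ha n x hx => ⟨?_, ?_⟩, fun i hi => ?_⟩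
    · exact codeRestr_l1 g hg p.ht p.b q.b h2.le a ha n x hx
    · exact codeRestr_l1 g hg p.ht q.b p.b h2.ge a ha n x hx
    · exact Set.Subset.antisymm (codeRestr_l2 g hg p.ht p.e q.e h3.le i hi)
        (codeRestr_l2 g hg p.ht q.e p.e h3.ge i hi)
  · intro p q hpq n m
    show codeRestr_c3 g p.ht (p.c n) = codeRestr_c3 g q.ht (q.c m) ↔ _
    rw [← hpq]
    constructor
    · intro h a ha
      exact ⟨codeRestr_l3 g hg p.ht (p.c n) (q.c m) h.le a ha,
        codeRestr_l3 g hg p.ht (q.c m) (p.c n) h.ge a ha⟩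
    · intro h
      ext k
      constructor
      · rintro ⟨a, h1, h2, h3⟩
        exact ⟨a, h1, h2, (h a h1).1 h3⟩
      · rintro ⟨a, h1, h2, h3⟩
        exact ⟨a, h1, h2, (h a h1).2 h3⟩

end Pool.Agent.Helper330.DPF
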