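import Pool.Agent.Helper330.DPF.Defs
import Pool.Agent.Helper330.DPF.P_amal
import Pool.Agent.Helper330.DPF.P_cobound
import Pool.Agent.Helper330.DPF.P_codeRestr

set_option autoImplicit false
set_option linter.all false

/-!
# Forcing the principle `◊⁺`

A sentence of the forcing language of a preordered set `P` of conditions is represented by the
set of the conditions which force it. Negation, conjunction and universal quantification are the
primitive connectives, with their usual forcing clauses; the other connectives are defined from
them classically. A name for a subset of a ground model set `X` is a map sending `x : X` to the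
set of the conditions attached to `x`.
-/

namespace Pool.Agent.Helper330.DPF
open Set


theorem cc {D : Cod} {ι : Type} (hι : Cardinal.continuum < Cardinal.mk ι) (p : ι → PD D) :
    ∃ i j, i ≠ j ∧ ∃ r : PD D, r ≤ p i ∧ r ≤ p j := by
  obtain ⟨T, U, t, u, hT, hU, ht, hu⟩ := codeRestr
  obtain ⟨i, j, hij, htt, hss⟩ := cobound hι hT hU (fun i => (p i).1.s) (fun i => t (p i).1)
    (fun i => u (p i).1) (fun i n m h => (hu _ _ rfl n m).2 ((p i).2.v1 n m h))
  obtain ⟨h1, h2, h3⟩ := ht _ _ htt
  exact ⟨i, j, hij, amal (p i) (p j) h1 h2 h3 (fun n m h => (hu _ _ h1 n m).1 (hss n m h))⟩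

end Pool.Agent.Helper330.DPF
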