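import Pool.Agent.Helper330.DPF.Defs
import Pool.Agent.Helper330.DPF.P_cptStab
import Pool.Agent.Helper330.DPF.P_decC

set_option autoImplicit false
set_option linter.all false

/-!
# Forcing the principle `◊⁺`

A sentence of the forcing language of a preordered set `P` of conditions is represented by the
set of the conditions which force it. Negation, conjunction and universal quantification are the
primitive connectives, with their usual forcing clauses; the other connectives are defined from
them classically. A name for a subset of a ground model set `X` is a map sending `x : X` to the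
set of the conditions attached to `x`.
-/

namespace Pool.Agent.Helper330.DPF
open Set


theorem closed_ {D : Cod} {Z : Set (Set ℕ)} (q : PD D) (n : ℕ) (hn : q.1.s n = Z) (a : W1)
    (ha : a ≤ q.1.ht) (ha' : ∃ b, b < a)
    (h : q ∈ fall fun b => fall fun _ : b < a => fex fun c =>
          fand (fground (b < c ∧ c < a)) (meets (CName D Z c))) :
    q ∈ meets (CName D Z a) := by
  subst hn
  have key : ∀ b, b < a → ∃ c, (b < c ∧ c < a) ∧ q.1.c n c ∧ Cpt D q.1 (q.1.s n) c := by
    intro b hb
    obtain ⟨r, hr, c, hc, hm⟩ := mem_fex.1 (h b hb) q le_rfl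
    have hext : Ext r.1 q.1 := hr
    obtain ⟨m, hm1, hm2⟩ := hext.2.2.2 n
    have hcq : c ≤ q.1.ht := hc.2.le.trans ha
    have hcr : c ≤ r.1.ht := hcq.trans hext.1
    have hd := decC r m hcr
    rw [hm1] at hd
    rcases hd with ⟨hv, _⟩ | ⟨_, hv⟩
    · refine ⟨c, hc, (hm2 c hcq).1 hv.1, ?_⟩
      exact (cptStab hext r.2.v1 q.2.v3 hcq).1 hv.2
    · exact absurd hm (hv r le_rfl)
  have hc : q.1.c n a := (q.2.v2 n).2 a ha ha' (fun b hb => by
    obtain ⟨c, h1, h2, h3⟩ := key b hb
    exact ⟨c, h1, h2⟩)
  have hC : Cpt D q.1 (q.1.s n) a := by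
    intro y hy
    obtain ⟨c, h1, h2, h3⟩ := key y hy
    obtain ⟨i, hi1, hi2, hi3⟩ := h3 y h1.1
    exact ⟨i, hi1.trans h1.2, hi2.trans h1.2, hi3⟩
  rcases decC q n ha with ⟨_, h2⟩ | ⟨h1, _⟩
  · exact h2
  · exact absurd ⟨hc, hC⟩ h1

end Pool.Agent.Helper330.DPF
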