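import Pool.Agent.Helper330.DPF.Defs
import Pool.Agent.Helper330.DPF.P_ctblIio

set_option autoImplicit false
set_option linter.all false

/-!
# Forcing the principle `◊⁺`

A sentence of the forcing language of a preordered set `P` of conditions is represented by the
set of the conditions which force it. Negation, conjunction and universal quantification are the
primitive connectives, with their usual forcing clauses; the other connectives are defined from
them classically. A name for a subset of a ground model set `X` is a map sending `x : X` to the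
set of the conditions attached to `x`.
-/

namespace Pool.Agent.Helper330.DPF
open Set


theorem closure_ (F : Set (Set ℕ) → W1 → W1 → ℕ → Set (Set ℕ)) (a : W1)
    (f : ℕ → Set (Set ℕ)) :
    ∃ s : ℕ → Set (Set ℕ), (∀ n, ∃ m, s m = f n) ∧
      ∀ n x i, x < a → i < a → ∀ m, ∃ k, s k = F (s n) x i m := by
  let T : ℕ → Set (Set (Set ℕ)) := fun n => Nat.rec (Set.range f)
    (fun _ S => S ∪ ⋃ Z ∈ S, ⋃ x ∈ Set.Iio a, ⋃ i ∈ Set.Iio a, ⋃ m : ℕ, {F Z x i m}) n
  have hT0 : T 0 = Set.range f := rfl
  have hTs : ∀ n, T (n + 1) = T n ∪ ⋃ Z ∈ T n, ⋃ x ∈ Set.Iio a, ⋃ i ∈ Set.Iio a,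
      ⋃ m : ℕ, {F Z x i m} := fun n => rfl
  have hc : ∀ n, (T n).Countable := by
    intro n
    induction n with
    | zero => rw [hT0]; exact Set.countable_range f
    | succ n ih =>
      rw [hTs]
      refine ih.union (ih.biUnion fun Z _ => ?_)
      refine (ctblIio a).biUnion fun x _ => ?_
      refine (ctblIio a).biUnion fun i _ => ?_
      exact Set.countable_iUnion fun m => Set.countable_singleton _
  have hU : (⋃ n, T n).Countable := Set.countable_iUnion hc
  have hne : (⋃ n, T n).Nonempty := ⟨f 0, Set.mem_iUnion.2 ⟨0, by rw [hT0]; exact ⟨0, rfl⟩⟩⟩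
  obtain ⟨s, hs⟩ := hU.exists_eq_range hne
  refine ⟨s, ?_, ?_⟩
  · intro n
    have h : f n ∈ Set.range s := by
      rw [← hs]
      exact Set.mem_iUnion.2 ⟨0, by rw [hT0]; exact ⟨n, rfl⟩⟩
    exact h
  · intro n x i hx hi m
    have h1 : s n ∈ ⋃ n, T n := by rw [hs]; exact ⟨n, rfl⟩
    obtain ⟨k, hk⟩ := Set.mem_iUnion.1 h1
    have h2 : F (s n) x i m ∈ Set.range s := by
      rw [← hs]
      refine Set.mem_iUnion.2 ⟨k + 1, ?_⟩
      rw [hTs]
      right
      simp only [Set.mem_iUnion]
      exact ⟨s n, hk, x, hx, i, hi, m, rfl⟩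
    exact h2

end Pool.Agent.Helper330.DPF
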