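import Pool.Agent.Helper330.DPF.Defs
import Pool.Agent.Helper330.DPF.P_cc
import Pool.Agent.Helper330.DPF.P_botCond

set_option autoImplicit false
set_option linter.all false

/-!
# Forcing the principle `◊⁺`

A sentence of the forcing language of a preordered set `P` of conditions is represented by the
set of the conditions which force it. Negation, conjunction and universal quantification are the
primitive connectives, with their usual forcing clauses; the other connectives are defined from
them classically. A name for a subset of a ground model set `X` is a map sending `x : X` to the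
set of the conditions attached to `x`.
-/

namespace Pool.Agent.Helper330.DPF
open Set


theorem predense {D : Cod} (E : Set (PD D)) (hd : ∀ q, ∃ r ∈ E, r ≤ q) :
    ∃ r : Set ℕ → PD D, (∀ m, r m ∈ E) ∧ ∀ p, ∃ m, ∃ q, q ≤ p ∧ q ≤ r m := by
  obtain ⟨S, hS⟩ : ∃ S : Set (Set (PD D)), S = {A : Set (PD D) | A ⊆ E ∧
      ∀ a ∈ A, ∀ b ∈ A, a ≠ b → ¬ ∃ r : PD D, r ≤ a ∧ r ≤ b} := ⟨_, rfl⟩
  obtain ⟨A, hA⟩ := zorn_subset S (by
    intro c hc hchain
    refine ⟨⋃₀ c, ?_, fun s hs => Set.subset_sUnion_of_mem hs⟩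
    rw [hS]
    refine ⟨?_, ?_⟩
    · intro a ha
      obtain ⟨s, hs, has⟩ := ha
      have := hc hs
      rw [hS] at this
      exact this.1 has
    · intro a ha b hb hab
      obtain ⟨s, hs, has⟩ := ha
      obtain ⟨t, ht, hbt⟩ := hb
      rcases hchain.total hs ht with h | h
      · have := hc ht
        rw [hS] at this
        exact this.2 a (h has) b hbt hab
      · have := hc hs
        rw [hS] at this
        exact this.2 a has b (h hbt) hab)
  have hAS : A ∈ S := hA.prop
  have hAS' := hAS
  rw [hS] at hAS'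
  obtain ⟨hAE, hAanti⟩ := hAS'
  have key : ∀ p : PD D, ∃ a ∈ A, ∃ q : PD D, q ≤ p ∧ q ≤ a := by
    intro p
    obtain ⟨r0, hr0, hr0p⟩ := hd p
    by_cases h : ∃ a ∈ A, ∃ q : PD D, q ≤ r0 ∧ q ≤ a
    · obtain ⟨a, ha, q, hq1, hq2⟩ := h
      exact ⟨a, ha, q, le_trans hq1 hr0p, hq2⟩
    · exfalso
      have hins : insert r0 A ∈ S := by
        rw [hS]
        refine ⟨?_, ?_⟩
        · intro a ha
          rcases Set.mem_insert_iff.mp ha with rfl | ha
          · exact hr0
          · exact hAE ha
        · intro a ha b hb hab hex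
          obtain ⟨r, hra, hrb⟩ := hex
          rcases Set.mem_insert_iff.mp ha with ha1 | ha1
          · rcases Set.mem_insert_iff.mp hb with hb1 | hb1
            · exact hab (ha1.trans hb1.symm)
            · exact h ⟨b, hb1, r, ha1 ▸ hra, hrb⟩
          · rcases Set.mem_insert_iff.mp hb with hb1 | hb1
            · exact h ⟨a, ha1, r, hb1 ▸ hrb, hra⟩
            · exact hAanti a ha1 b hb1 hab ⟨r, hra, hrb⟩
      have hsub := hA.le_of_ge hins (Set.subset_insert r0 A)
      exact h ⟨r0, hsub (Set.mem_insert _ _), r0, le_refl _, le_refl _⟩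
  have hcard : Cardinal.mk A ≤ Cardinal.mk (Set ℕ) := by
    rw [Cardinal.mk_set_nat]
    by_contra hcon
    push Not at hcon
    obtain ⟨i, j, hij, r, hr1, hr2⟩ := cc hcon (fun a : A => a.1)
    exact hAanti i.1 i.2 j.1 j.2 (fun h => hij (Subtype.ext h)) ⟨r, hr1, hr2⟩
  obtain ⟨f⟩ := Cardinal.le_def _ _ |>.mp hcard
  obtain ⟨p0⟩ := botCond D
  obtain ⟨a0, ha0, _⟩ := key p0
  have hne : Nonempty A := ⟨⟨a0, ha0⟩⟩
  have hsurj : Function.Surjective (Function.invFun f) := Function.invFun_surjective f.injective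
  refine ⟨fun m => (Function.invFun f m).1, fun m => hAE (Function.invFun f m).2, fun p => ?_⟩
  obtain ⟨a, ha, q, hq1, hq2⟩ := key p
  obtain ⟨m, hm⟩ := hsurj ⟨a, ha⟩
  refine ⟨m, q, hq1, ?_⟩
  beta_reduce
  rw [hm]
  exact hq2

end Pool.Agent.Helper330.DPF
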