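import Pool.Agent.Helper330.DPF.Defs
import Pool.Agent.Helper330.DPF.P_predense

set_option autoImplicit false
set_option linter.all false

/-!
# Forcing the principle `◊⁺`

A sentence of the forcing language of a preordered set `P` of conditions is represented by the
set of the conditions which force it. Negation, conjunction and universal quantification are the
primitive connectives, with their usual forcing clauses; the other connectives are defined from
them classically. A name for a subset of a ground model set `X` is a map sending `x : X` to the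
set of the conditions attached to `x`.
-/

namespace Pool.Agent.Helper330.DPF
open Set


theorem exCode {D : Cod} (hD : Function.Surjective D) (X : W1 → Set (PD D)) :
    ∃ Z, Codes D X Z := by
  have hdense : ∀ x : W1, ∀ q : PD D,
      ∃ r ∈ ({r | r ∈ meets (X x) ∨ r ∈ fnot (meets (X x))} : Set (PD D)), r ≤ q := by
    intro x q
    by_cases h : ∃ r ≤ q, r ∈ meets (X x)
    · obtain ⟨r, hr, hm⟩ := h
      exact ⟨r, Or.inl hm, hr⟩
    · exact ⟨q, Or.inr (fun r hr hm => h ⟨r, hr, hm⟩), le_rfl⟩
  choose r hr hp using fun x : W1 =>
    predense ({r | r ∈ meets (X x) ∨ r ∈ fnot (meets (X x))} : Set (PD D)) (hdense x)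
  obtain ⟨Z, hZ⟩ := hD (fun x m => ((r x m).1, r x m ∈ meets (X x)))
  refine ⟨Z, ?_⟩
  intro x
  have hZx : ∀ m, D Z x m = ((r x m).1, r x m ∈ meets (X x)) := fun m => by rw [hZ]
  constructor
  · intro m
    rw [hZx m]
    refine ⟨r x m, rfl, ?_⟩
    rcases hr x m with h | h
    · exact Or.inl ⟨h, h⟩
    · exact Or.inr ⟨h (r x m) le_rfl, h⟩
  · intro p
    obtain ⟨m, q, hq, hqr⟩ := hp x p
    refine ⟨m, q, hq, ?_⟩
    rw [hZx m]
    exact hqr

end Pool.Agent.Helper330.DPF
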