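import Pool.Agent.Helper330.DPF.Defs

set_option autoImplicit false
set_option linter.all false

/-!
# Forcing the principle `◊⁺`

A sentence of the forcing language of a preordered set `P` of conditions is represented by the
set of the conditions which force it. Negation, conjunction and universal quantification are the
primitive connectives, with their usual forcing clauses; the other connectives are defined from
them classically. A name for a subset of a ground model set `X` is a map sending `x : X` to the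
set of the conditions attached to `x`.
-/

namespace Pool.Agent.Helper330.DPF
open Set


theorem mkRaw_fun (α β : Type) (hα : Cardinal.mk α ≤ Cardinal.continuum)
    (hβ : Cardinal.mk β ≤ 2 ^ Cardinal.continuum) :
    Cardinal.mk (α → β) ≤ 2 ^ Cardinal.continuum := by
  have h2 : (2 : Cardinal.{0}) ^ Cardinal.continuum ≠ 0 :=
    Cardinal.power_ne_zero _ two_ne_zero
  calc Cardinal.mk (α → β) = Cardinal.mk β ^ Cardinal.mk α := (Cardinal.power_def β α).symm
    _ ≤ (2 ^ Cardinal.continuum) ^ Cardinal.mk α := Cardinal.power_le_power_right hβ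
    _ ≤ (2 ^ Cardinal.continuum) ^ Cardinal.continuum := Cardinal.power_le_power_left h2 hα
    _ = 2 ^ (Cardinal.continuum * Cardinal.continuum) := Cardinal.power_mul.symm
    _ = 2 ^ Cardinal.continuum := by rw [Cardinal.continuum_mul_self]

theorem mkRaw_prod (α β : Type) (hα : Cardinal.mk α ≤ 2 ^ Cardinal.continuum)
    (hβ : Cardinal.mk β ≤ 2 ^ Cardinal.continuum) :
    Cardinal.mk (α × β) ≤ 2 ^ Cardinal.continuum := by
  calc Cardinal.mk (α × β) = Cardinal.mk α * Cardinal.mk β := (Cardinal.mul_def α β).symm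
    _ ≤ 2 ^ Cardinal.continuum * 2 ^ Cardinal.continuum := mul_le_mul' hα hβ
    _ = 2 ^ (Cardinal.continuum + Cardinal.continuum) := (Cardinal.power_add _ _ _).symm
    _ = 2 ^ Cardinal.continuum := by rw [Cardinal.continuum_add_self]

theorem mkRaw : Cardinal.mk Raw ≤ 2 ^ Cardinal.continuum := by
  have hc : (Cardinal.continuum : Cardinal.{0}) ≤ 2 ^ Cardinal.continuum :=
    (Cardinal.cantor _).le
  have hW : Cardinal.mk W1 ≤ Cardinal.continuum := by
    rw [Cardinal.mk_ord_toType]
    exact Cardinal.aleph_one_le_continuum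
  have hN : Cardinal.mk ℕ ≤ Cardinal.continuum := by
    rw [Cardinal.mk_nat]
    exact Cardinal.aleph0_le_continuum
  have hP : Cardinal.mk Prop ≤ 2 ^ Cardinal.continuum := by
    rw [Cardinal.mk_Prop]
    exact (Cardinal.nat_lt_continuum 2).le.trans hc
  have hS : Cardinal.mk (Set ℕ) = Cardinal.continuum := Cardinal.mk_set_nat
  have hSS : Cardinal.mk (Set (Set ℕ)) ≤ 2 ^ Cardinal.continuum := by
    rw [Cardinal.mk_set, hS]
  have hWP := mkRaw_fun W1 Prop hW hP
  have h1 := mkRaw_fun W1 _ hW (mkRaw_fun ℕ _ hN hWP)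
  have h2 := mkRaw_fun W1 (Set ℕ) hW (hS.le.trans hc)
  have h3 := mkRaw_fun ℕ _ hN hSS
  have h4 := mkRaw_fun ℕ _ hN hWP
  have h5 := mkRaw_prod _ _ (hW.trans hc) (mkRaw_prod _ _ h1 (mkRaw_prod _ _ h2
    (mkRaw_prod _ _ h3 h4)))
  refine le_trans ?_ h5
  refine Cardinal.mk_le_of_injective (f := fun p : Raw => (p.ht, p.b, p.e, p.s, p.c)) ?_
  intro p q h
  have h' : (p.ht, p.b, p.e, p.s, p.c) = (q.ht, q.b, q.e, q.s, q.c) := h
  simp only [Prod.mk.injEq] at h'
  obtain ⟨a1, a2, a3, a4, a5⟩ := h'
  cases p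
  cases q
  simp only at a1 a2 a3 a4 a5
  subst a1 a2 a3 a4 a5
  rfl

end Pool.Agent.Helper330.DPF
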