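import Pool.Agent.Helper330.DPF.Defs
import Pool.Agent.Helper330.DPF.P_mkRaw

set_option autoImplicit false
set_option linter.all false

/-!
# Forcing the principle `◊⁺`

A sentence of the forcing language of a preordered set `P` of conditions is represented by the
set of the conditions which force it. Negation, conjunction and universal quantification are the
primitive connectives, with their usual forcing clauses; the other connectives are defined from
them classically. A name for a subset of a ground model set `X` is a map sending `x : X` to the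
set of the conditions attached to `x`.
-/

namespace Pool.Agent.Helper330.DPF
open Set


theorem existsDec : ∃ D : Cod, Function.Surjective D := by
  have hW : Cardinal.mk W1 = Cardinal.aleph 1 := Cardinal.mk_ord_toType _
  have h0 : Cardinal.aleph 1 ≤ Cardinal.continuum := Cardinal.aleph_one_le_continuum
  have h1 : Cardinal.mk (W1 → Set ℕ → Raw × Prop) ≤ Cardinal.mk (Set (Set ℕ)) := by
    have e1 : Cardinal.mk (W1 → Set ℕ → Raw × Prop) =
        (Cardinal.mk (Raw × Prop) ^ Cardinal.continuum) ^ Cardinal.aleph 1 := by
      rw [← hW, ← Cardinal.mk_set_nat, Cardinal.power_def, Cardinal.power_def]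
    have e2 : Cardinal.mk (Raw × Prop) ≤ 2 ^ Cardinal.continuum := by
      have e3 : Cardinal.mk (Raw × Prop) = Cardinal.mk Raw * Cardinal.mk Prop := by
        rw [Cardinal.mul_def]
      rw [e3, Cardinal.mk_Prop]
      calc Cardinal.mk Raw * 2 ≤ 2 ^ Cardinal.continuum * 2 ^ (1 : Cardinal) := by
            rw [Cardinal.power_one]
            exact mul_le_mul' mkRaw le_rfl
        _ = 2 ^ (Cardinal.continuum + 1) := (Cardinal.power_add _ _ _).symm
        _ = 2 ^ Cardinal.continuum := by
            rw [Cardinal.add_one_eq Cardinal.aleph0_le_continuum]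
    have e4 : (Cardinal.mk (Raw × Prop) ^ Cardinal.continuum) ^ Cardinal.aleph 1 ≤
        ((2 ^ Cardinal.continuum) ^ Cardinal.continuum) ^ Cardinal.aleph 1 := by
      exact Cardinal.power_le_power_right (Cardinal.power_le_power_right e2)
    have e5 : ((2 ^ Cardinal.continuum) ^ Cardinal.continuum) ^ Cardinal.aleph 1 = (2 : Cardinal.{0}) ^ Cardinal.continuum := by
      rw [← Cardinal.power_mul, ← Cardinal.power_mul,
        Cardinal.mul_eq_left Cardinal.aleph0_le_continuum h0 (Cardinal.aleph_pos _).ne', Cardinal.continuum_mul_self]
    rw [Cardinal.mk_set, Cardinal.mk_set_nat, e1]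
    exact e4.trans (le_of_eq e5)
  obtain ⟨f⟩ := h1
  have hne : Nonempty W1 := by
    rw [← Cardinal.mk_ne_zero_iff, hW]
    exact (Cardinal.aleph_pos _).ne'
  obtain ⟨w⟩ := hne
  haveI : Nonempty (W1 → Set ℕ → Raw × Prop) :=
    ⟨fun _ _ => (⟨w, fun _ _ _ => True, fun _ => ∅, fun _ => ∅, fun _ _ => True⟩, True)⟩
  exact ⟨Function.invFun f, Function.invFun_surjective f.injective⟩

end Pool.Agent.Helper330.DPF
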