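import Pool.Agent.Helper330.DPF.Defs

set_option autoImplicit false
set_option linter.all false

/-!
# Forcing the principle `◊⁺`

A sentence of the forcing language of a preordered set `P` of conditions is represented by the
set of the conditions which force it. Negation, conjunction and universal quantification are the
primitive connectives, with their usual forcing clauses; the other connectives are defined from
them classically. A name for a subset of a ground model set `X` is a map sending `x : X` to the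
set of the conditions attached to `x`.
-/

namespace Pool.Agent.Helper330.DPF
open Set


theorem topfix_ext (p : Raw) (b' : W1 → ℕ → W1 → Prop) (hb : ∀ a, a < p.ht → b' a = p.b a)
    (r : Raw) (hr : r.ht < p.ht) : Ext ⟨p.ht, b', p.e, p.s, p.c⟩ r ↔ Ext p r := by
  constructor
  · rintro ⟨e1, e2, e3, e4⟩
    refine ⟨e1, fun a ha n x hx => ?_, e3, e4⟩
    rw [← hb a (lt_of_le_of_lt ha hr)]
    exact e2 a ha n x hx
  · rintro ⟨e1, e2, e3, e4⟩
    refine ⟨e1, fun a ha n x hx => ?_, e3, e4⟩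
    show b' a n x ↔ _
    rw [hb a (lt_of_le_of_lt ha hr)]
    exact e2 a ha n x hx

theorem topfix_WS {D : Cod} (p : Raw) (b' : W1 → ℕ → W1 → Prop)
    (hb : ∀ a, a < p.ht → b' a = p.b a) (Z : Set (Set ℕ)) (a x : W1) (ha : a ≤ p.ht) :
    WS D ⟨p.ht, b', p.e, p.s, p.c⟩ Z a x ↔ WS D p Z a x := by
  constructor
  · rintro ⟨i, h1, h2, h3, h4⟩
    exact ⟨i, h1, h2, h3, (topfix_ext p b' hb _ (lt_of_lt_of_le h3 ha)).mp h4⟩
  · rintro ⟨i, h1, h2, h3, h4⟩
    exact ⟨i, h1, h2, h3, (topfix_ext p b' hb _ (lt_of_lt_of_le h3 ha)).mpr h4⟩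

theorem topfix_Cpt {D : Cod} (p : Raw) (b' : W1 → ℕ → W1 → Prop)
    (hb : ∀ a, a < p.ht → b' a = p.b a) (Z : Set (Set ℕ)) (x : W1) (hx : x ≤ p.ht) :
    Cpt D ⟨p.ht, b', p.e, p.s, p.c⟩ Z x ↔ Cpt D p Z x := by
  constructor
  · intro h y hy
    obtain ⟨i, h1, h3, h4⟩ := h y hy
    exact ⟨i, h1, h3, (topfix_ext p b' hb _ (lt_of_lt_of_le h3 hx)).mp h4⟩
  · intro h y hy
    obtain ⟨i, h1, h3, h4⟩ := h y hy
    exact ⟨i, h1, h3, (topfix_ext p b' hb _ (lt_of_lt_of_le h3 hx)).mpr h4⟩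

theorem topfix {D : Cod} (p : Raw) (h1 : V1 p) (h2 : V2 p) (h3 : V3 D p)
    (h4 : ∀ n a, a < p.ht → p.c n a → Cap D p n a) :
    ∃ b' : W1 → ℕ → W1 → Prop, (∀ a, a < p.ht → b' a = p.b a) ∧
      Valid D ⟨p.ht, b', p.e, p.s, p.c⟩ := by
  classical
  obtain ⟨b', hb, htop0, htop1⟩ : ∃ b' : W1 → ℕ → W1 → Prop, (∀ a, a < p.ht → b' a = p.b a) ∧
      (∀ n x, b' p.ht (2 * n) x ↔ WS D p (p.s n) p.ht x) ∧
      (∀ n x, b' p.ht (2 * n + 1) x ↔ (p.c n x ∧ Cpt D p (p.s n) x)) := by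
    refine ⟨fun a k x => if a = p.ht then (if k % 2 = 0 then WS D p (p.s (k/2)) p.ht x
      else (p.c (k/2) x ∧ Cpt D p (p.s (k/2)) x)) else p.b a k x, ?_, ?_, ?_⟩
    · intro a ha
      funext k x
      show (if a = p.ht then _ else _) = _
      rw [if_neg ha.ne]
    · intro n x
      show (if p.ht = p.ht then _ else _) ↔ _
      rw [if_pos rfl, if_pos (by omega)]
      have : 2 * n / 2 = n := by omega
      rw [this]
    · intro n x
      show (if p.ht = p.ht then _ else _) ↔ _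
      rw [if_pos rfl, if_neg (by omega)]
      have : (2 * n + 1) / 2 = n := by omega
      rw [this]
  refine ⟨b', hb, ⟨h1, h2, h3, ?_⟩⟩
  intro n a ha hc
  change a ≤ p.ht at ha
  change p.c n a at hc
  rcases ha.lt_or_eq with hlt | heq
  · obtain ⟨⟨k, hk⟩, ⟨l, hl⟩⟩ := h4 n a hlt hc
    refine ⟨⟨k, fun x hx => ?_⟩, ⟨l, fun x hx => ?_⟩⟩
    · show b' a k x ↔ _
      rw [hb a hlt]
      exact (hk x hx).trans (topfix_WS p b' hb (p.s n) a x ha).symm
    · show b' a l x ↔ (p.c n x ∧ _)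
      rw [hb a hlt]
      refine (hl x hx).trans (and_congr_right fun _ => ?_)
      exact (topfix_Cpt p b' hb (p.s n) x (hx.le.trans ha)).symm
  · subst heq
    refine ⟨⟨2 * n, fun x hx => ?_⟩, ⟨2 * n + 1, fun x hx => ?_⟩⟩
    · exact (htop0 n x).trans (topfix_WS p b' hb (p.s n) _ x le_rfl).symm
    · refine (htop1 n x).trans (and_congr_right fun _ => ?_)
      exact (topfix_Cpt p b' hb (p.s n) x hx.le).symm

end Pool.Agent.Helper330.DPF
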