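import Pool.Agent.Helper330.DPF.Defs
import Pool.Agent.Helper330.DPF.P_bddOne
import Pool.Agent.Helper330.DPF.P_capStab
import Pool.Agent.Helper330.DPF.P_topfix
import Pool.Agent.Helper330.DPF.P_closure_

set_option autoImplicit false
set_option linter.all false

/-!
# Forcing the principle `◊⁺`

A sentence of the forcing language of a preordered set `P` of conditions is represented by the
set of the conditions which force it. Negation, conjunction and universal quantification are the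
primitive connectives, with their usual forcing clauses; the other connectives are defined from
them classically. A name for a subset of a ground model set `X` is a map sending `x : X` to the
set of the conditions attached to `x`.
-/

namespace Pool.Agent.Helper330.DPF
open Set


theorem extend {D : Cod} (p : PD D) (Z : Set (Set ℕ)) (d : W1) (m : Set ℕ) :
    ∃ q : PD D, q ≤ p ∧ p.1.ht < q.1.ht ∧ d < q.1.ht ∧ (∃ n, q.1.s n = Z) ∧
      ∃ i, i < q.1.ht ∧ q.1.e i = m := by
  classical
  obtain ⟨P, hp⟩ := p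
  obtain ⟨g, hg⟩ := bddOne (fun i => if i = 0 then P.ht else d)
  have hg1 : P.ht < g := by simpa using hg 0
  have hg2 : d < g := by simpa using hg 1
  obtain ⟨e', he'⟩ : ∃ e' : W1 → Set ℕ, e' = fun i => if i < P.ht then P.e i else m := ⟨_, rfl⟩
  obtain ⟨s, hs1, hs2⟩ := closure_ (fun Z x i k => (D Z x (e' i)).1.s k) g
    (fun n => if n = 0 then Z else P.s (n - 1))
  obtain ⟨c', hc'⟩ : ∃ c' : ℕ → W1 → Prop,
      c' = fun n a => a = g ∨ (a ≤ P.ht ∧ ∃ k, P.s k = s n ∧ P.c k a) := ⟨_, rfl⟩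
  have hc : ∀ n a, c' n a ↔ (a = g ∨ (a ≤ P.ht ∧ ∃ k, P.s k = s n ∧ P.c k a)) := by
    intro n a
    rw [hc']
  have hExt : ∀ b' : W1 → ℕ → W1 → Prop, (∀ a, a < g → b' a = P.b a) →
      Ext ⟨g, b', e', s, c'⟩ P := by
    intro b' hb'
    refine ⟨hg1.le, ?_, ?_, ?_⟩
    · intro a ha n x hx
      show b' a n x ↔ P.b a n x
      rw [hb' a (lt_of_le_of_lt ha hg1)]
    · intro i hi
      show e' i = P.e i
      rw [he']
      exact if_pos hi
    · intro n
      obtain ⟨k, hk⟩ := hs1 (n + 1)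
      simp only [Nat.add_eq_zero_iff, one_ne_zero, and_false, if_false, Nat.add_sub_cancel] at hk
      refine ⟨k, hk, ?_⟩
      intro a ha
      show c' k a ↔ P.c n a
      rw [hc]
      constructor
      · rintro (h | ⟨-, l, hl, hl'⟩)
        · exact absurd h (ne_of_lt (lt_of_le_of_lt ha hg1))
        · exact (hp.v1 l n (hl.trans hk) a ha).1 hl'
      · intro h
        exact Or.inr ⟨ha, n, hk.symm, h⟩
  have h1 : V1 ⟨g, P.b, e', s, c'⟩ := by
    intro n l hnl a ha
    show c' n a ↔ c' l a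
    have hnl' : s n = s l := hnl
    rw [hc, hc, hnl']
  have h2 : V2 ⟨g, P.b, e', s, c'⟩ := by
    intro n
    refine ⟨(hc n g).2 (Or.inl rfl), ?_⟩
    intro a ha hb hlim
    show c' n a
    change ∀ b, b < a → ∃ c, (b < c ∧ c < a) ∧ c' n c at hlim
    change a ≤ g at ha
    rw [hc]
    rcases eq_or_lt_of_le ha with rfl | hag
    · exact Or.inl rfl
    · right
      have haP : a ≤ P.ht := by
        by_contra hcon
        rw [not_le] at hcon
        obtain ⟨c, ⟨hc1, hc2⟩, hc3⟩ := hlim P.ht hcon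
        rw [hc] at hc3
        rcases hc3 with h | ⟨h, -⟩
        · exact absurd h (ne_of_lt (hc2.trans hag))
        · exact absurd hc1 (not_lt.2 h)
      have hex : ∀ b, b < a → ∃ c, (b < c ∧ c < a) ∧ ∃ k, P.s k = s n ∧ P.c k c := by
        intro b hba
        obtain ⟨c, hc1, hc3⟩ := hlim b hba
        rw [hc] at hc3
        rcases hc3 with h | ⟨-, h⟩
        · exact absurd h (ne_of_lt (hc1.2.trans hag))
        · exact ⟨c, hc1, h⟩
      obtain ⟨b0, hb0⟩ := hb
      obtain ⟨c0, -, k, hk, -⟩ := hex b0 hb0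
      refine ⟨haP, k, hk, (hp.v2 k).2 a haP ⟨b0, hb0⟩ ?_⟩
      intro b hba
      obtain ⟨c, hc1, l, hl, hl'⟩ := hex b hba
      exact ⟨c, hc1, (hp.v1 l k (hl.trans hk.symm) c (hc1.2.le.trans haP)).1 hl'⟩
  have h3 : V3 D ⟨g, P.b, e', s, c'⟩ := by
    intro n x i hx hi l
    exact hs2 n x i hx hi l
  have h4 : ∀ n a, a < g → c' n a → Cap D ⟨g, P.b, e', s, c'⟩ n a := by
    intro n a ha hca
    rw [hc] at hca
    rcases hca with h | ⟨haP, k, hk, hk'⟩
    · exact absurd h (ne_of_lt ha)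
    · exact (capStab (hExt P.b (fun _ _ => rfl)) h1 hp.v3 hk.symm haP).2 (hp.v4 k a haP hk')
  obtain ⟨b', hb', hval⟩ := topfix ⟨g, P.b, e', s, c'⟩ h1 h2 h3 h4
  refine ⟨⟨⟨g, b', e', s, c'⟩, hval⟩, hExt b' hb', hg1, hg2, ?_, P.ht, hg1, ?_⟩
  · obtain ⟨k, hk⟩ := hs1 0
    exact ⟨k, by simpa using hk⟩
  · show e' P.ht = m
    rw [he']
    exact if_neg (lt_irrefl _)

end Pool.Agent.Helper330.DPF
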