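import Pool.Agent.Helper330.DPF.Defs
import Pool.Agent.Helper330.DPF.P_bddOne

set_option autoImplicit false
set_option linter.all false

/-!
# Forcing the principle `◊⁺`

A sentence of the forcing language of a preordered set `P` of conditions is represented by the
set of the conditions which force it. Negation, conjunction and universal quantification are the
primitive connectives, with their usual forcing clauses; the other connectives are defined from
them classically. A name for a subset of a ground model set `X` is a map sending `x : X` to the
set of the conditions attached to `x`.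
-/

namespace Pool.Agent.Helper330.DPF
open Set


theorem supOne (f : ℕ → W1) (hf : ∀ n, f n < f (n + 1)) :
    ∃ a : W1, (∀ i, f i < a) ∧ ∀ b, b < a → ∃ i, b < f i := by
  have wf : WellFounded ((· < ·) : W1 → W1 → Prop) := wellFounded_lt
  obtain ⟨a, ha, hmin⟩ := wf.has_min {a : W1 | ∀ i, f i < a} (bddOne f)
  refine ⟨a, ha, fun b hb => ?_⟩
  have h1 : ¬ (∀ i, f i < b) := fun h => hmin b h hb
  rw [not_forall] at h1
  obtain ⟨i, hi⟩ := h1
  exact ⟨i + 1, (not_lt.1 hi).trans_lt (hf i)⟩

end Pool.Agent.Helper330.DPF
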