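import Pool.Agent.Helper330.DPF.Defs
import Pool.Agent.Helper330.DPF.P_bddOne
import Pool.Agent.Helper330.DPF.P_supOne
import Pool.Agent.Helper330.DPF.P_capStab
import Pool.Agent.Helper330.DPF.P_topfix

set_option autoImplicit false
set_option linter.all false

/-!
# Forcing the principle `◊⁺`

A sentence of the forcing language of a preordered set `P` of conditions is represented by the
set of the conditions which force it. Negation, conjunction and universal quantification are the
primitive connectives, with their usual forcing clauses; the other connectives are defined from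
them classically. A name for a subset of a ground model set `X` is a map sending `x : X` to the
set of the conditions attached to `x`.
-/

namespace Pool.Agent.Helper330.DPF
open Set


theorem lower {D : Cod} (p : ℕ → PD D) (hp : ∀ k, p (k + 1) ≤ p k)
    (hh : ∀ k, (p k).1.ht < (p (k + 1)).1.ht) :
    ∃ q : PD D, (∀ k, q ≤ p k) ∧ (∀ x, x < q.1.ht → ∃ k, x < (p k).1.ht) := by
  classical
  have hExt : ∀ j k, j ≤ k → Ext (p k).1 (p j).1 := by
    intro j k hjk
    induction hjk with
    | refl => exact ext_refl _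
    | step _ ih => exact ext_trans (hp _) ih
  obtain ⟨g, hg, hgs⟩ := supOne (fun k => (p k).1.ht) hh
  have hJ' : ∀ a : W1, ∃ j, a < g → a < (p j).1.ht := by
    intro a
    by_cases h : a < g
    · obtain ⟨j, hj⟩ := hgs a h
      exact ⟨j, fun _ => hj⟩
    · exact ⟨0, fun h' => absurd h' h⟩
  choose J hJ using hJ'
  have hmono : ∀ j k, j ≤ k → (p j).1.ht ≤ (p k).1.ht := fun j k h => (hExt j k h).1
  let b0 : W1 → ℕ → W1 → Prop := fun a => (p (J a)).1.b a
  let e0 : W1 → Set ℕ := fun i => (p (J i)).1.e i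
  let s0 : ℕ → Set (Set ℕ) := fun l => (p l.unpair.1).1.s l.unpair.2
  let c0 : ℕ → W1 → Prop := fun l a => a = g ∨ ∃ j m, a ≤ (p j).1.ht ∧ (p j).1.s m = s0 l ∧ (p j).1.c m a
  have factB : ∀ k a, a ≤ (p k).1.ht → ∀ n x, x < a → (b0 a n x ↔ (p k).1.b a n x) := by
    intro k a ha n x hx
    have hag : a < g := ha.trans_lt (hg k)
    have hJa := hJ a hag
    rcases le_total k (J a) with h | h
    · exact (hExt _ _ h).2.1 a ha n x hx
    · exact ((hExt _ _ h).2.1 a hJa.le n x hx).symm
  have factE : ∀ k i, i < (p k).1.ht → e0 i = (p k).1.e i := by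
    intro k i hi
    have hig : i < g := hi.trans (hg k)
    have hJi := hJ i hig
    rcases le_total k (J i) with h | h
    · exact (hExt _ _ h).2.2.1 i hi
    · exact ((hExt _ _ h).2.2.1 i hJi).symm
  have factC1 : ∀ j m j' m' a, j ≤ j' → a ≤ (p j).1.ht → (p j).1.s m = (p j').1.s m' →
      ((p j).1.c m a ↔ (p j').1.c m' a) := by
    intro j m j' m' a hjj ha hs
    obtain ⟨m'', h1, h2⟩ := (hExt _ _ hjj).2.2.2 m
    have h3 := (p j').2.v1 m'' m' (h1.trans hs) a (ha.trans (hmono _ _ hjj))
    exact (h2 a ha).symm.trans h3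
  have factC : ∀ j m j' m' a, a ≤ (p j).1.ht → a ≤ (p j').1.ht → (p j).1.s m = (p j').1.s m' →
      ((p j).1.c m a ↔ (p j').1.c m' a) := by
    intro j m j' m' a ha ha' hs
    rcases le_total j j' with h | h
    · exact factC1 j m j' m' a h ha hs
    · exact (factC1 j' m' j m a h ha' hs.symm).symm
  have factC0 : ∀ l j m a, a ≤ (p j).1.ht → (p j).1.s m = s0 l → (c0 l a ↔ (p j).1.c m a) := by
    intro l j m a ha hs
    constructor
    · rintro (h | ⟨j', m', h1, h2, h3⟩)
      · exact absurd (h ▸ ha) (not_le.2 (hg j))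
      · exact (factC j m j' m' a ha h1 (hs.trans h2.symm)).2 h3
    · intro h
      exact Or.inr ⟨j, m, ha, hs, h⟩
  have hpair : ∀ k n, s0 (Nat.pair k n) = (p k).1.s n := by
    intro k n
    simp only [s0, Nat.unpair_pair]
  have hname : ∀ l j, l.unpair.1 ≤ j → ∃ m, (p j).1.s m = s0 l := by
    intro l j hlj
    obtain ⟨m, hm, -⟩ := (hExt _ _ hlj).2.2.2 l.unpair.2
    exact ⟨m, hm⟩
  set q0 : Raw := ⟨g, b0, e0, s0, c0⟩ with hq0
  have hExt0 : ∀ k, Ext q0 (p k).1 := by
    intro k
    refine ⟨(hg k).le, factB k, factE k, fun n => ⟨Nat.pair k n, hpair k n, fun a ha => ?_⟩⟩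
    exact factC0 (Nat.pair k n) k n a ha (hpair k n).symm
  have h1 : V1 q0 := by
    intro n m hnm a ha
    change c0 n a ↔ c0 m a
    have hnm' : s0 n = s0 m := hnm
    simp only [c0, hnm']
  have h2 : V2 q0 := by
    intro n
    refine ⟨Or.inl rfl, ?_⟩
    intro a ha hb hc
    change c0 n a
    rcases eq_or_lt_of_le (show a ≤ g from ha) with h | h
    · exact Or.inl h
    · set j := max (J a) n.unpair.1 with hj
      have haj : a < (p j).1.ht := (hJ a h).trans_le (hmono _ _ (le_max_left _ _))
      obtain ⟨m, hm⟩ := hname n j (le_max_right _ _)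
      rw [factC0 n j m a haj.le hm]
      refine ((p j).2.v2 m).2 a haj.le hb fun b hb' => ?_
      obtain ⟨c, ⟨hc1, hc2⟩, hc3⟩ := hc b hb'
      exact ⟨c, ⟨hc1, hc2⟩, (factC0 n j m c (hc2.le.trans haj.le) hm).1 hc3⟩
  have h3 : V3 D q0 := by
    intro n x i hx hi m
    set k := max (max (J x) (J i)) n.unpair.1 with hk
    have hxk : x < (p k).1.ht := (hJ x hx).trans_le
      (hmono _ _ ((le_max_left _ _).trans (le_max_left _ _)))
    have hik : i < (p k).1.ht := (hJ i hi).trans_le
      (hmono _ _ ((le_max_right _ _).trans (le_max_left _ _)))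
    obtain ⟨n', hn'⟩ := hname n k (le_max_right _ _)
    obtain ⟨k', hk'⟩ := (p k).2.v3 n' x i hxk hik m
    refine ⟨Nat.pair k k', ?_⟩
    change s0 (Nat.pair k k') = (D (s0 n) x (e0 i)).1.s m
    rw [hpair, hk', hn', factE k i hik]
  have h4 : ∀ n a, a < q0.ht → q0.c n a → Cap D q0 n a := by
    intro n a ha hc
    set j := max (J a) n.unpair.1 with hj
    have haj : a < (p j).1.ht := (hJ a ha).trans_le (hmono _ _ (le_max_left _ _))
    obtain ⟨m, hm⟩ := hname n j (le_max_right _ _)
    have hc' : (p j).1.c m a := (factC0 n j m a haj.le hm).1 hc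
    have hcap := (p j).2.v4 m a haj.le hc'
    exact (capStab (hExt0 j) h1 (p j).2.v3 (m := n) (n := m) hm.symm haj.le).2 hcap
  obtain ⟨b', hb', hval⟩ := topfix q0 h1 h2 h3 h4
  refine ⟨⟨⟨g, b', e0, s0, c0⟩, hval⟩, ?_, ?_⟩
  · intro k
    refine ⟨(hg k).le, ?_, factE k, (hExt0 k).2.2.2⟩
    intro a ha n x hx
    have hag : a < g := ha.trans_lt (hg k)
    change b' a n x ↔ _
    rw [hb' a hag]
    exact factB k a ha n x hx
  · intro x hx
    exact hgs x hx
end Pool.Agent.Helper330.DPF
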