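import Pool.Agent.Helper330.DPF.Defs
import Pool.Agent.Helper330.DPF.P_extend
import Pool.Agent.Helper330.DPF.P_lower

set_option autoImplicit false
set_option linter.all false

/-!
# Forcing the principle `◊⁺`

A sentence of the forcing language of a preordered set `P` of conditions is represented by the
set of the conditions which force it. Negation, conjunction and universal quantification are the
primitive connectives, with their usual forcing clauses; the other connectives are defined from
them classically. A name for a subset of a ground model set `X` is a map sending `x : X` to the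
set of the conditions attached to `x`.
-/

namespace Pool.Agent.Helper330.DPF
open Set


theorem meetAll {D : Cod} (E : ℕ → Set (PD D)) (hE : ∀ i, Down (E i))
    (hd : ∀ i q, ∃ r ∈ E i, r ≤ q) (p : PD D) : ∃ q, q ≤ p ∧ ∀ i, q ∈ E i := by
  have step : ∀ (k : ℕ) (q : PD D), ∃ r : PD D, r ∈ E k ∧ r ≤ q ∧ q.1.ht < r.1.ht := by
    intro k q
    obtain ⟨q1, h1, h2, -⟩ := extend q ∅ q.1.ht ∅
    obtain ⟨r, hr, hr1⟩ := hd k q1
    obtain ⟨r2, h3, h4, h5, -⟩ := extend r ∅ q.1.ht ∅
    exact ⟨r2, hE k _ hr _ h3, le_trans h3 (le_trans hr1 h1), h5⟩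
  choose g hg1 hg2 hg3 using step
  let p' : ℕ → PD D := fun n => Nat.rec p (fun k q => g k q) n
  have hp0 : p' 0 = p := rfl
  have hps : ∀ k, p' (k + 1) = g k (p' k) := fun k => rfl
  obtain ⟨q, hq, -⟩ := lower p' (fun k => by rw [hps]; exact hg2 k _)
    (fun k => by rw [hps]; exact hg3 k _)
  refine ⟨q, hq 0, ?_⟩
  intro i
  have h1 := hq (i + 1)
  rw [hps] at h1
  exact hE i _ (hg1 i _) _ h1

end Pool.Agent.Helper330.DPF
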