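import Pool.Agent.Helper330.DPF.Defs
import Pool.Agent.Helper330.DPF.P_ctblIio
import Pool.Agent.Helper330.DPF.P_meetAll

set_option autoImplicit false
set_option linter.all false

/-!
# Forcing the principle `◊⁺`

A sentence of the forcing language of a preordered set `P` of conditions is represented by the
set of the conditions which force it. Negation, conjunction and universal quantification are the
primitive connectives, with their usual forcing clauses; the other connectives are defined from
them classically. A name for a subset of a ground model set `X` is a map sending `x : X` to the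
set of the conditions attached to `x`.
-/

namespace Pool.Agent.Helper330.DPF
open Set


theorem meetIio {D : Cod} (a : W1) (E : W1 → Set (PD D)) (hE : ∀ i, Down (E i))
    (hd : ∀ i q, ∃ r ∈ E i, r ≤ q) (p : PD D) : ∃ q, q ≤ p ∧ ∀ i, i < a → q ∈ E i := by
  rcases (Set.Iio a).eq_empty_or_nonempty with h0 | hne
  · refine ⟨p, le_refl p, fun i hi => ?_⟩
    have : i ∈ Set.Iio a := hi
    rw [h0] at this
    exact absurd this (Set.notMem_empty _)
  · obtain ⟨f, hf⟩ := (ctblIio a).exists_eq_range hne
    obtain ⟨q, hq, hqE⟩ := meetAll (fun n => E (f n)) (fun n => hE (f n)) (fun n => hd (f n)) p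
    refine ⟨q, hq, fun i hi => ?_⟩
    have h1 : i ∈ Set.Iio a := hi
    rw [hf] at h1
    obtain ⟨n, hn⟩ := h1
    rw [← hn]
    exact hqE n

end Pool.Agent.Helper330.DPF
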