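import Pool.Agent.Helper330.DPF.Defs
import Pool.Agent.Helper330.DPF.P_extend
import Pool.Agent.Helper330.DPF.P_meetIio

set_option autoImplicit false
set_option linter.all false

/-!

A sentence of the forcing language of a preordered set `P` of conditions is represented by the
set of the conditions which force it. Negation, conjunction and universal quantification are the
primitive connectives, with their usual forcing clauses; the other connectives are defined from
them classically. A name for a subset of a ground model set `X` is a map sending `x : X` to the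
set of the conditions attached to `x`.
-/

namespace Pool.Agent.Helper330.DPF
open Set


theorem stepC {D : Cod} {X : W1 → Set (PD D)} {Z : Set (Set ℕ)} (hZ : Codes D X Z) (p : PD D)
    (d : W1) :
    ∃ q : PD D, q ≤ p ∧ p.1.ht < q.1.ht ∧ d < q.1.ht ∧ ∀ y, y < p.1.ht →
      ∃ i, i < q.1.ht ∧ (D Z y (q.1.e i)).1.ht < q.1.ht ∧ Ext q.1 (D Z y (q.1.e i)).1 := by
  obtain ⟨p1, hp1, hp1h, hp1d, _⟩ := extend p Z d ∅
  have hdown : ∀ y, Down {q : PD D | ∃ i, i < q.1.ht ∧ (D Z y (q.1.e i)).1.ht < q.1.ht ∧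
      Ext q.1 (D Z y (q.1.e i)).1} := by
    rintro y q ⟨i, hi, hh, hE⟩ q' hq'
    have hx : Ext q'.1 q.1 := hq'
    have he : q'.1.e i = q.1.e i := hx.2.2.1 i hi
    refine ⟨i, hi.trans_le hx.1, ?_, ?_⟩
    · rw [he]
      exact hh.trans_le hx.1
    · rw [he]
      exact ext_trans hx hE
  have hdense : ∀ (y : W1) (q : PD D), ∃ r ∈ {q : PD D | ∃ i, i < q.1.ht ∧
      (D Z y (q.1.e i)).1.ht < q.1.ht ∧ Ext q.1 (D Z y (q.1.e i)).1}, r ≤ q := by
    intro y q
    obtain ⟨m, q', hq', hE⟩ := (hZ y).2 q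
    obtain ⟨q'', hq'', hh, _, _, i, hi, he⟩ := extend q' Z q'.1.ht m
    have hx : Ext q''.1 q'.1 := hq''
    refine ⟨q'', ⟨i, hi, ?_, ?_⟩, le_trans hq'' hq'⟩
    · rw [he]
      exact lt_of_le_of_lt hE.1 hh
    · rw [he]
      exact ext_trans hx hE
  obtain ⟨q, hq, hqE⟩ := meetIio p.1.ht _ hdown hdense p1
  have hq1 : p1.1.ht ≤ q.1.ht := (show Ext q.1 p1.1 from hq).1
  exact ⟨q, le_trans hq hp1, hp1h.trans_le hq1, hp1d.trans_le hq1, hqE⟩

end Pool.Agent.Helper330.DPF

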