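import Pool.Agent.Helper330.DPF.Defs
import Pool.Agent.Helper330.DPF.P_lower
import Pool.Agent.Helper330.DPF.P_stepC

set_option autoImplicit false
set_option linter.all false

/-!
# Forcing the principle `◊⁺`

A sentence of the forcing language of a preordered set `P` of conditions is represented by the
set of the conditions which force it. Negation, conjunction and universal quantification are the
primitive connectives, with their usual forcing clauses; the other connectives are defined from
them classically. A name for a subset of a ground model set `X` is a map sending `x : X` to the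
set of the conditions attached to `x`.
-/

namespace Pool.Agent.Helper330.DPF
open Set


theorem unbounded {D : Cod} {X : W1 → Set (PD D)} {Z : Set (Set ℕ)} (hZ : Codes D X Z)
    (p : PD D) (n : ℕ) (hn : p.1.s n = Z) (a : W1) :
    ∃ q : PD D, q ≤ p ∧ ∃ b m, a < b ∧ b ≤ q.1.ht ∧ q.1.s m = Z ∧ q.1.c m b ∧
      Cpt D q.1 Z b := by
  choose nx hx1 hx2 hx3 hx4 using fun p' : PD D => stepC hZ p' a
  let p' : ℕ → PD D := fun k => Nat.rec p (fun _ r => nx r) k
  have hs : ∀ k, p' (k + 1) = nx (p' k) := fun k => rfl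
  have h1 : ∀ k, p' (k + 1) ≤ p' k := fun k => by
    rw [hs]
    exact hx1 _
  have h2 : ∀ k, (p' k).1.ht < (p' (k + 1)).1.ht := fun k => by
    rw [hs]
    exact hx2 _
  obtain ⟨q, hq, hqx⟩ := lower p' h1 h2
  have hle : ∀ k, (p' k).1.ht ≤ q.1.ht := fun k => (hq k).1
  have h0 : Ext q.1 p.1 := hq 0
  obtain ⟨m, hm, _⟩ := h0.2.2.2 n
  refine ⟨q, hq 0, q.1.ht, m, ?_, le_rfl, hm.trans hn, (q.2.v2 m).1, ?_⟩
  · have h3 : a < (p' (0 + 1)).1.ht := by
      rw [hs]
      exact hx3 _
    exact h3.trans_le (hle 1)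
  · intro y hy
    obtain ⟨k, hk⟩ := hqx y hy
    obtain ⟨i, hi1, hi2, hi3⟩ := hx4 (p' k) y hk
    rw [← hs] at hi1 hi2 hi3
    have he : q.1.e i = (p' (k + 1)).1.e i := (hq (k + 1)).2.2.1 i hi1
    refine ⟨i, hi1.trans_le (hle (k + 1)), ?_, ?_⟩
    · rw [he]
      exact hi2.trans_le (hle (k + 1))
    · rw [he]
      exact ext_trans (hq (k + 1)) hi3

end Pool.Agent.Helper330.DPF
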