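import Pool.Agent.Helper330.DPF.Defs
import Pool.Agent.Helper330.DPF.P_extend
import Pool.Agent.Helper330.DPF.P_exCode
import Pool.Agent.Helper330.DPF.P_decC
import Pool.Agent.Helper330.DPF.P_unbounded
import Pool.Agent.Helper330.DPF.P_closed_
import Pool.Agent.Helper330.DPF.P_capture

set_option autoImplicit false
set_option linter.all false

/-!
# Forcing the principle `◊⁺`

A sentence of the forcing language of a preordered set `P` of conditions is represented by the
set of the conditions which force it. Negation, conjunction and universal quantification are the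
primitive connectives, with their usual forcing clauses; the other connectives are defined from
them classically. A name for a subset of a ground model set `X` is a map sending `x : X` to the
set of the conditions attached to `x`.
-/

namespace Pool.Agent.Helper330.DPF
open Set


theorem holds {D : Cod} (hD : Function.Surjective D) (p : PD D) :
    p ∈ DiamondPlusHolds (PD D) := by
  unfold DiamondPlusHolds
  rw [mem_fex]
  intro q0 hq0
  refine ⟨q0, le_rfl, BName D, ?_⟩
  intro X
  rw [mem_fex]
  intro q1 hq1
  obtain ⟨Z, hZ⟩ := exCode hD X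
  obtain ⟨r, hr, -, -, ⟨n, hn⟩, -⟩ := extend q1 Z q1.1.ht ∅
  refine ⟨r, hr, CName D Z, ?_, ?_, ?_⟩
  · intro a
    rw [mem_fex]
    intro r' hr'
    obtain ⟨n', hn', -⟩ := (show Ext r'.1 r.1 from hr').2.2.2 n
    obtain ⟨q, hq, b, m, hab, hbq, hm, hcm, hcpt⟩ := unbounded hZ r' n' (hn'.trans hn) a
    refine ⟨q, hq, b, hab, ?_⟩
    intro s hs
    exact ⟨s, le_rfl, q, ⟨hbq, ⟨m, hm, hcm⟩, hcpt⟩, hs⟩
  · intro a ha'
    refine fimp_of ?_
    intro q hq h
    refine meets_of_dense ?_
    intro q' hq'
    obtain ⟨r', hr', -, har, ⟨n', hn'⟩, -⟩ := extend q' Z a ∅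
    refine ⟨r', hr', closed_ r' n' hn' a har.le ha' ?_⟩
    exact down_fall (fun b => down_fall (fun _ => down_fex _)) _ h _ (hr'.trans hq')
  · intro a
    refine fimp_of ?_
    intro q hq h
    refine ⟨?_, ?_⟩
    · rw [mem_fex]
      intro q' hq'
      obtain ⟨r', hr', -, har, ⟨n', hn'⟩, -⟩ := extend q' Z a ∅
      obtain ⟨⟨k, hk⟩, -⟩ := capture hZ r' n' hn' a har.le
        (down_meets _ _ h _ (hr'.trans hq'))
      exact ⟨r', hr', k, fun x hx => hk x hx⟩
    · rw [mem_fex]
      intro q' hq'
      obtain ⟨r', hr', -, har, ⟨n', hn'⟩, -⟩ := extend q' Z a ∅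
      obtain ⟨-, ⟨k, hk⟩⟩ := capture hZ r' n' hn' a har.le
        (down_meets _ _ h _ (hr'.trans hq'))
      exact ⟨r', hr', k, fun x hx => hk x hx⟩

end Pool.Agent.Helper330.DPF
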