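import Pool.Agent.Helper330.DPF.Defs
import Pool.Agent.Helper330.DPF.P_bddOne
import Pool.Agent.Helper330.DPF.P_meetAll

set_option autoImplicit false
set_option linter.all false

/-!
# Forcing the principle `◊⁺`

A sentence of the forcing language of a preordered set `P` of conditions is represented by the
set of the conditions which force it. Negation, conjunction and universal quantification are the
primitive connectives, with their usual forcing clauses; the other connectives are defined from
them classically. A name for a subset of a ground model set `X` is a map sending `x : X` to the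
set of the conditions attached to `x`.
-/

namespace Pool.Agent.Helper330.DPF
open Set


theorem omegaOne {D : Cod} (p : PD D) : p ∈ OmegaOnePreserved (PD D) := by
  intro q _ hq
  obtain ⟨r, hrq, R, hR, hR'⟩ := mem_fex.1 hq q le_rfl
  obtain ⟨E, hEdef⟩ : ∃ E : ℕ → Set (PD D), ∀ n t, t ∈ E n ↔
      ((∃ a, t ∈ meets (R n a)) ∨ (∀ u, u ≤ t → ¬ u ≤ r)) :=
    ⟨fun n => {t | (∃ a, t ∈ meets (R n a)) ∨ (∀ u, u ≤ t → ¬ u ≤ r)}, fun n t => Iff.rfl⟩
  have hEd : ∀ n, Down (E n) := by
    intro n t ht t' ht'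
    rw [hEdef] at ht ⊢
    rcases ht with ⟨a, ha⟩ | h
    · exact Or.inl ⟨a, down_meets _ t ha t' ht'⟩
    · exact Or.inr fun u hu => h u (hu.trans ht')
  have hEdense : ∀ n t, ∃ s ∈ E n, s ≤ t := by
    intro n t
    by_cases h : ∃ u, u ≤ t ∧ u ≤ r
    · obtain ⟨u, hut, hur⟩ := h
      obtain ⟨v, hvu, a, hv⟩ := mem_fex.1 (hR.1 n) u hur
      exact ⟨v, (hEdef n v).2 (Or.inl ⟨a, hv⟩), hvu.trans hut⟩
    · push Not at h
      exact ⟨t, (hEdef n t).2 (Or.inr h), le_rfl⟩
  obtain ⟨t, htr, ht⟩ := meetAll E hEd hEdense r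
  have hg : ∀ n, ∃ a, t ∈ meets (R n a) := by
    intro n
    rcases (hEdef n t).1 (ht n) with h | h
    · exact h
    · exact absurd htr (h t le_rfl)
  choose g hg using hg
  obtain ⟨b, hb⟩ := bddOne g
  obtain ⟨t', ht't, n, hn⟩ := mem_fex.1 (hR' b) t htr
  obtain ⟨s, hs, hs2⟩ := mem_fimp.1 (hR.2 n (g n) b) t' (ht't.trans htr)
    ⟨down_meets _ t (hg n) t' ht't, hn⟩
  have h3 : g n = b := hs2
  exact (hb n).ne h3

end Pool.Agent.Helper330.DPF
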